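import Pool.Agent.H700.RU.Step

/-!
# The cluster step and the recursion
-/

set_option autoImplicit false

namespace Pool.Agent.H700.RU

open Finset
open Pool.Agent.H818R2.Ram (HasRed HasBlue hasBlue_succ)
open Pool.Agent.R533.VC (Growth growth_comp cluster pack dif)

variable {V : Type} [DecidableEq V]

theorem dif_tri {X Y : Type} (F : X → Y → Bool) (A : Finset X) (y y' z : Y) :
    dif F A y y' ≤ dif F A y z + dif F A y' z := by
  classical
  unfold dif
  refine le_trans (card_le_card ?_) (card_union_le _ _)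
  intro x hx
  obtain ⟨hx1, hx2⟩ := mem_filter.1 hx
  by_cases h : F x y = F x z
  · refine mem_union_right _ (mem_filter.2 ⟨hx1, ?_⟩)
    rw [← h]
    exact fun h' => hx2 h'.symm
  · exact mem_union_left _ (mem_filter.2 ⟨hx1, h⟩)

/-- **Cluster step** -/
theorem cluster_step (G : SimpleGraph V) [DecidableRel G.Adj] (F : V → V → Bool) (D h : ℕ)
    (hF : Growth F D) (A : Finset V) (hA : A.Nonempty) (κ s T : ℕ) (τ : ℝ) (hτ : 0 < τ)
    (hκ : 1 ≤ τ * 2 ^ κ) (hh : 1 ≤ h) (hs : h ≤ 2 ^ s) (hT : 2 * D ≤ 2 ^ T)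
    (hsum : τ * ((A.card : ℝ) * A.card) ≤
      ∑ u ∈ A, ((w1 G F A u : ℝ) - 4 * h * (w0 G F A u : ℝ))) :
    ∃ C ⊆ A, A.card ≤ 2 ^ (κ + 1 + (2 * D * (κ + s + 6 + T) + 2)) * C.card ∧
      ∀ H ⊆ C, H.card = h → ∃ A' ⊆ A, Disjoint H A' ∧ (∀ u ∈ H, ∀ v ∈ A', G.Adj u v) ∧
        A.card ≤ 2 ^ (κ + 2) * (A'.card + h) := by
  obtain ⟨n, hn⟩ : ∃ n : ℝ, n = (A.card : ℝ) := ⟨_, rfl⟩
  have hn0 : 0 < n := by
    rw [hn]
    exact_mod_cast card_pos.2 hA
  rw [← hn] at hsum
  have hhr : (1 : ℝ) ≤ h := by exact_mod_cast hh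
  let U := A.filter (fun u => τ / 2 * n ≤ (w1 G F A u : ℝ) - 4 * h * (w0 G F A u : ℝ))
  have hw1 : ∀ u, (w1 G F A u : ℝ) ≤ n := by
    intro u
    rw [hn]
    exact_mod_cast card_filter_le _ _
  have hU : τ / 2 * n ≤ U.card := by
    have h1 : ∑ u ∈ A, ((w1 G F A u : ℝ) - 4 * h * (w0 G F A u : ℝ)) ≤
        ∑ u ∈ A, ((if u ∈ U then n else 0) + τ / 2 * n) := by
      refine sum_le_sum fun u hu => ?_
      have e0 : (0 : ℝ) ≤ 4 * h * (w0 G F A u : ℝ) := by positivity
      have e1 : 0 ≤ τ / 2 * n := by positivity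
      split_ifs with hU
      · have := hw1 u
        linarith
      · have : ¬ (τ / 2 * n ≤ (w1 G F A u : ℝ) - 4 * h * (w0 G F A u : ℝ)) :=
          fun h' => hU (mem_filter.2 ⟨hu, h'⟩)
        push Not at this
        linarith
    have h2 : ∑ u ∈ A, ((if u ∈ U then n else 0) + τ / 2 * n) =
        U.card * n + n * (τ / 2 * n) := by
      rw [sum_add_distrib, sum_const, nsmul_eq_mul, ← hn, ← sum_filter]
      have : A.filter (fun u => u ∈ U) = U := by
        ext u
        simp only [mem_filter]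
        exact ⟨fun h => h.2, fun h => ⟨(mem_filter.1 h).1, h⟩⟩
      rw [this, sum_const, nsmul_eq_mul]
    rw [h2] at h1
    have h3 : τ / 2 * n * n ≤ U.card * n := by nlinarith
    exact le_of_mul_le_mul_right h3 hn0
  have hUne : U.Nonempty := by
    rw [← card_pos]
    have : (0 : ℝ) < U.card := lt_of_lt_of_le (by positivity) hU
    exact_mod_cast this
  obtain ⟨e, he⟩ : ∃ e : ℕ, e = 2 ^ (κ + s + 5) := ⟨_, rfl⟩
  have he1 : 1 ≤ e := by
    rw [he]
    exact Nat.one_le_two_pow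
  obtain ⟨P, hsep, p, hp, C, hCU, hclose, hcard⟩ := cluster F A U hUne e
  have hPc := pack F D hF A hA P e he1 hsep (κ + s + 6) T (by
    rw [he, pow_succ 2 (κ + s + 5)]
    omega) hT
  have hCA : C ⊆ A := hCU.trans (filter_subset _ _)
  have her : (24 : ℝ) * h ≤ τ * e := by
    rw [he]
    push_cast
    have h1 : (h : ℝ) ≤ 2 ^ s := by exact_mod_cast hs
    have h2 : τ * 2 ^ (κ + s + 5) = (τ * 2 ^ κ) * (2 ^ s * 32) := by
      rw [pow_add, pow_add]
      ring
    rw [h2]
    have h3 : (0 : ℝ) ≤ 2 ^ s * 32 := by positivity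
    nlinarith
  refine ⟨C, hCA, ?_, ?_⟩
  · have h1 : n ≤ 2 ^ (κ + 1) * (U.card : ℝ) := by
      have h2 : n ≤ (τ * 2 ^ κ) * n := le_mul_of_one_le_left hn0.le hκ
      calc n ≤ (τ * 2 ^ κ) * n := h2
        _ = 2 ^ (κ + 1) * (τ / 2 * n) := by rw [pow_succ]; ring
        _ ≤ 2 ^ (κ + 1) * (U.card : ℝ) := mul_le_mul_of_nonneg_left hU (by positivity)
    have h2 : A.card ≤ 2 ^ (κ + 1) * U.card := by
      rw [hn] at h1
      exact_mod_cast h1
    calc A.card ≤ 2 ^ (κ + 1) * U.card := h2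
      _ ≤ 2 ^ (κ + 1) * (P.card * C.card) := Nat.mul_le_mul_left _ hcard
      _ ≤ 2 ^ (κ + 1) * (2 ^ (2 * D * (κ + s + 6 + T) + 2) * C.card) :=
          Nat.mul_le_mul_left _ (Nat.mul_le_mul_right _ hPc)
      _ = 2 ^ (κ + 1 + (2 * D * (κ + s + 6 + T) + 2)) * C.card := by
          rw [pow_add 2 (κ + 1)]
          ring
  · intro H hHC hHh
    have hHne : H.Nonempty := by
      rw [← card_pos]
      omega
    obtain ⟨u0, hu0⟩ := hHne
    let W : V → Finset V := fun u => A.filter (fun x => F x u = true)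
    let A' := A.filter (fun x => x ∉ H ∧ ∀ u ∈ H, (F x u = true ∧ G.Adj x u))
    have hcov : W u0 ⊆ (A' ∪ H) ∪ ((H.biUnion (fun u => A.filter (fun x => F x u ≠ F x u0))) ∪
        (H.biUnion (fun u => A.filter (fun x => (x ≠ u ∧ ¬ G.Adj x u) ∧ F x u = true)))) := by
      intro x hx
      obtain ⟨hxA, hx0⟩ := mem_filter.1 hx
      by_cases hxH : x ∈ H
      · exact mem_union_left _ (mem_union_right _ hxH)
      · by_cases hall : ∀ u ∈ H, (F x u = true ∧ G.Adj x u)
        · exact mem_union_left _ (mem_union_left _ (mem_filter.2 ⟨hxA, hxH, hall⟩))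
        · push Not at hall
          obtain ⟨u, huH, hu⟩ := hall
          by_cases hFu : F x u = true
          · refine mem_union_right _ (mem_union_right _ (mem_biUnion.2 ⟨u, huH, mem_filter.2
              ⟨hxA, ⟨?_, hu hFu⟩, hFu⟩⟩))
            rintro rfl
            exact hxH huH
          · refine mem_union_right _ (mem_union_left _ (mem_biUnion.2 ⟨u, huH, mem_filter.2
              ⟨hxA, ?_⟩⟩))
            rw [hx0]
            exact hFu
    have hc1 : (W u0).card ≤ (A'.card + h) + (∑ u ∈ H, dif F A u u0 + ∑ u ∈ H, w0 G F A u) := by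
      refine (card_le_card hcov).trans ((card_union_le _ _).trans ?_)
      refine add_le_add ((card_union_le _ _).trans (by rw [hHh])) ?_
      refine (card_union_le _ _).trans (add_le_add ?_ ?_)
      · exact card_biUnion_le
      · exact card_biUnion_le
    have he0 : (0 : ℝ) < e := by exact_mod_cast he1
    have hdif : ∀ u ∈ H, (dif F A u u0 : ℝ) ≤ 2 * n / e := by
      intro u hu
      have h1 := dif_tri F A u u0 p
      have h2 := hclose u (hHC hu)
      have h3 := hclose u0 (hHC hu0)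
      rw [le_div_iff₀ he0, hn]
      have h4 : e * dif F A u u0 ≤ 2 * A.card := by nlinarith
      have h5 : (e : ℝ) * dif F A u u0 ≤ 2 * (A.card : ℝ) := by exact_mod_cast h4
      linarith
    have hWle : ∀ u ∈ H, (w1 G F A u : ℝ) ≤ (W u0).card + 2 * n / e := by
      intro u hu
      have h1 : w1 G F A u ≤ (W u0).card + dif F A u u0 := by
        unfold w1 dif
        refine le_trans (card_le_card ?_) (card_union_le _ _)
        intro x hx
        obtain ⟨hxA, _, hxF⟩ := mem_filter.1 hx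
        by_cases h0 : F x u0 = true
        · exact mem_union_left _ (mem_filter.2 ⟨hxA, h0⟩)
        · refine mem_union_right _ (mem_filter.2 ⟨hxA, ?_⟩)
          rw [hxF]
          exact fun h' => h0 h'.symm
      have h2 : (w1 G F A u : ℝ) ≤ (W u0).card + dif F A u u0 := by exact_mod_cast h1
      have := hdif u hu
      linarith
    have hw0 : ∀ u ∈ H, 4 * (h : ℝ) * (w0 G F A u : ℝ) ≤ (W u0).card + 2 * n / e := by
      intro u hu
      have h1 := (mem_filter.1 (hCU (hHC hu))).2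
      have h2 := hWle u hu
      have h3 : 0 ≤ τ / 2 * n := by positivity
      linarith
    have hW0 : τ / 2 * n ≤ (W u0).card := by
      have h1 := (mem_filter.1 (hCU (hHC hu0))).2
      have h2 : w1 G F A u0 ≤ (W u0).card := by
        unfold w1
        refine card_le_card ?_
        intro x hx
        obtain ⟨hxA, _, hxF⟩ := mem_filter.1 hx
        exact mem_filter.2 ⟨hxA, hxF⟩
      have h3 : (w1 G F A u0 : ℝ) ≤ (W u0).card := by exact_mod_cast h2
      have h4 : (0 : ℝ) ≤ 4 * h * (w0 G F A u0 : ℝ) := by positivity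
      linarith
    have hs1 : (∑ u ∈ H, dif F A u u0 : ℝ) ≤ h * (2 * n / e) := by
      rw [← hHh, ← nsmul_eq_mul, ← sum_const]
      exact sum_le_sum hdif
    have hs0 : 4 * (∑ u ∈ H, (w0 G F A u : ℝ)) ≤ (W u0).card + 2 * n / e := by
      have h1 : (h : ℝ) * (4 * (∑ u ∈ H, (w0 G F A u : ℝ))) ≤ h * ((W u0).card + 2 * n / e) := by
        calc (h : ℝ) * (4 * (∑ u ∈ H, (w0 G F A u : ℝ))) =
              ∑ u ∈ H, 4 * (h : ℝ) * (w0 G F A u : ℝ) := by
              rw [mul_sum, mul_sum]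
              refine sum_congr rfl fun u _ => by ring
          _ ≤ ∑ _u ∈ H, (((W u0).card : ℝ) + 2 * n / e) := sum_le_sum hw0
          _ = h * ((W u0).card + 2 * n / e) := by rw [sum_const, nsmul_eq_mul, hHh]
      exact le_of_mul_le_mul_left h1 (by linarith)
    have hc2 : ((W u0).card : ℝ) ≤ ((A'.card : ℝ) + h) +
        ((∑ u ∈ H, dif F A u u0 : ℝ) + ∑ u ∈ H, (w0 G F A u : ℝ)) := by exact_mod_cast hc1
    have hne : (h : ℝ) * (n / e) ≤ τ * n / 24 := by
      rw [mul_div_assoc', div_le_iff₀ he0]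
      nlinarith
    have hne1 : n / e ≤ h * (n / e) := le_mul_of_one_le_left (by positivity) hhr
    have key : τ / 4 * n ≤ (A'.card : ℝ) + h := by
      have e1 : 2 * n / e = 2 * (n / e) := by ring
      rw [e1] at hs1 hs0
      nlinarith
    refine ⟨A', filter_subset _ _, ?_, ?_, ?_⟩
    · rw [disjoint_left]
      intro x hx hx'
      exact (mem_filter.1 hx').2.1 hx
    · intro u hu v hv
      exact ((mem_filter.1 hv).2.2 u hu).2.symm
    · have h1 : n ≤ 2 ^ (κ + 2) * ((A'.card : ℝ) + h) := by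
        calc n ≤ (τ * 2 ^ κ) * n := le_mul_of_one_le_left hn0.le hκ
          _ = 2 ^ (κ + 2) * (τ / 4 * n) := by rw [pow_add]; ring
          _ ≤ 2 ^ (κ + 2) * ((A'.card : ℝ) + h) := mul_le_mul_of_nonneg_left key (by positivity)
      rw [hn] at h1
      exact_mod_cast h1

end Pool.Agent.H700.RU
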