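import Mathlib

/-!
# Every graph on at most `m ^ a` vertices is a union of `m` graphs of VC dimension at most `6 a`
-/

set_option autoImplicit false

namespace Pool.Agent.H700.RU

open Finset

/-- `S` is shattered by the neighbourhoods of the vertices -/
def Shat {V : Type} (G : SimpleGraph V) (S : Finset V) : Prop :=
  ∀ T ⊆ S, ∃ v, ∀ x ∈ S, (G.Adj v x ↔ x ∈ T)

/-- functions that are constant on `P` -/
noncomputable def cst {E : Type} [Fintype E] [DecidableEq E] {m : ℕ} (P : Finset E) (i : Fin m) :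
    Finset (E → Fin m) :=
  Fintype.piFinset (fun e => if e ∈ P then {i} else univ)

theorem card_cst {E : Type} [Fintype E] [DecidableEq E] {m : ℕ} (P : Finset E) (i : Fin m) :
    (cst P i).card * m ^ P.card = m ^ Fintype.card E := by
  have h1 : (cst P i).card = ∏ e : E, (if e ∈ P then 1 else m) := by
    unfold cst
    rw [Fintype.card_piFinset]
    refine prod_congr rfl fun e _ => ?_
    split_ifs
    · simp
    · simp
  rw [h1, prod_ite, prod_const_one, one_mul, prod_const, ← pow_add]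
  congr 1
  have h2 := card_filter_add_card_filter_not (s := (univ : Finset E)) (fun e => e ∈ P)
  have h3 : (univ.filter (fun e => e ∈ P)) = P := by
    ext e; simp
  rw [h3, card_univ] at h2
  omega

theorem centralBinom_ge (a : ℕ) (ha : 1 ≤ a) : 12 * a + 2 ≤ (6 * a).choose (3 * a) := by
  have h1 : ∀ n, 2 * Nat.centralBinom n ≤ Nat.centralBinom (n + 1) := by
    intro n
    have h2 := Nat.succ_mul_centralBinom_succ n
    have h3 : (n + 1) * (2 * Nat.centralBinom n) ≤ (n + 1) * Nat.centralBinom (n + 1) := by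
      rw [h2]
      have : 0 < Nat.centralBinom n := Nat.centralBinom_pos n
      nlinarith
    exact Nat.le_of_mul_le_mul_left h3 (by omega)
  have h4 : ∀ a, 12 * (a + 1) + 2 ≤ Nat.centralBinom (3 * (a + 1)) := by
    intro a
    induction a with
    | zero =>
      have : Nat.centralBinom 3 = 20 := by decide
      simp [this]
    | succ a ih =>
      have e1 := h1 (3 * (a + 1))
      have e2 := h1 (3 * (a + 1) + 1)
      have e3 := h1 (3 * (a + 1) + 1 + 1)
      have e4 : 3 * (a + 1 + 1) = 3 * (a + 1) + 1 + 1 + 1 := by ring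
      rw [e4]
      omega
  obtain ⟨b, rfl⟩ : ∃ b, a = b + 1 := ⟨a - 1, by omega⟩
  have := h4 b
  rw [Nat.centralBinom_eq_two_mul_choose] at this
  rw [show 6 * (b + 1) = 2 * (3 * (b + 1)) by ring]
  exact this

/-- the pairs of an index -/
noncomputable def prs {V : Type} [DecidableEq V] {q t : ℕ} (s : Fin q → V) (v : Fin t → V)
    (T : Fin t → Finset (Fin q)) : Finset (Sym2 V) :=
  ((univ : Finset (Fin t × Fin q)).filter (fun p => p.2 ∈ T p.1)).image
    (fun p => s(v p.1, s p.2))

theorem card_prs {V : Type} [DecidableEq V] {q t p : ℕ} (s : Fin q → V) (v : Fin t → V)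
    (T : Fin t → Finset (Fin q)) (hs : Function.Injective s) (hv : Function.Injective v)
    (hsv : ∀ j l, v j ≠ s l) (hT : ∀ j, (T j).card = p) : (prs s v T).card = t * p := by
  unfold prs
  rw [card_image_of_injOn]
  · rw [card_filter, Fintype.sum_prod_type]
    have : ∀ j : Fin t, ∑ l : Fin q, (if l ∈ T j then 1 else 0) = p := by
      intro j
      rw [← card_filter]
      rw [← hT j]
      congr 1
      ext l
      simp
    simp only [this, sum_const, card_univ, Fintype.card_fin, smul_eq_mul]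
  · intro x _ y _ hxy
    simp only [Sym2.eq_iff] at hxy
    rcases hxy with ⟨h1, h2⟩ | ⟨h1, _⟩
    · exact Prod.ext (hv h1) (hs h2)
    · exact absurd h1 (hsv _ _)

/-- the part `i` of a graph -/
def part {V : Type} (G : SimpleGraph V) {m : ℕ} (c : Sym2 V → Fin m) (i : Fin m) :
    SimpleGraph V where
  Adj x y := G.Adj x y ∧ c s(x, y) = i
  symm := ⟨fun x y h => ⟨h.1.symm, by rw [Sym2.eq_swap]; exact h.2⟩⟩
  loopless := ⟨fun x h => h.1.ne rfl⟩

theorem shat_index {V : Type} [Fintype V] [DecidableEq V] (G : SimpleGraph V) {m : ℕ}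
    (c : Sym2 V → Fin m) (i : Fin m) (a : ℕ) (ha : 1 ≤ a) (S : Finset V) (hS : S.card = 6 * a)
    (hsh : Shat (part G c i) S) :
    ∃ (s : Fin (6 * a) → V) (v : Fin (6 * a + 2) → V) (T : Fin (6 * a + 2) → Finset (Fin (6 * a))),
      Function.Injective s ∧ Function.Injective v ∧ (∀ j l, v j ≠ s l) ∧
      (∀ j, (T j).card = 3 * a) ∧ c ∈ cst (prs s v T) i := by
  classical
  have hne : Nonempty V := by
    have : S.Nonempty := by
      rw [← card_pos]
      omega
    exact ⟨this.choose⟩
  choose! g hg using hsh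
  let 𝒯 := S.powersetCard (3 * a)
  have h𝒯 : 𝒯.card = (6 * a).choose (3 * a) := by
    rw [card_powersetCard, hS]
  have hinj : Set.InjOn g (𝒯 : Set (Finset V)) := by
    intro T hT T' hT' h
    rw [mem_coe, mem_powersetCard] at hT hT'
    ext x
    constructor
    · intro hx
      have h1 := (hg T hT.1 x (hT.1 hx)).2 hx
      rw [h] at h1
      exact (hg T' hT'.1 x (hT.1 hx)).1 h1
    · intro hx
      have h1 := (hg T' hT'.1 x (hT'.1 hx)).2 hx
      rw [← h] at h1
      exact (hg T hT.1 x (hT'.1 hx)).1 h1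
  have hW : 6 * a + 2 ≤ ((𝒯.image g) \ S).card := by
    have h1 : (𝒯.image g).card = (6 * a).choose (3 * a) := by
      rw [card_image_of_injOn hinj, h𝒯]
    have h2 := card_le_card_sdiff_add_card (s := 𝒯.image g) (t := S)
    have h3 := centralBinom_ge a ha
    omega
  obtain ⟨W, hWs, hWc⟩ := exists_subset_card_eq hW
  let s : Fin (6 * a) → V := fun l => (S.equivFin.symm (Fin.cast hS.symm l) : V)
  let v : Fin (6 * a + 2) → V := fun j => (W.equivFin.symm (Fin.cast hWc.symm j) : V)
  have hsS : ∀ l, s l ∈ S := fun l => (S.equivFin.symm (Fin.cast hS.symm l)).2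
  have hvW : ∀ j, v j ∈ W := fun j => (W.equivFin.symm (Fin.cast hWc.symm j)).2
  have hs : Function.Injective s := by
    intro x y h
    have h1 := S.equivFin.symm.injective (Subtype.ext h)
    exact Fin.cast_injective _ h1
  have hv : Function.Injective v := by
    intro x y h
    have h1 := W.equivFin.symm.injective (Subtype.ext h)
    exact Fin.cast_injective _ h1
  have hsurj : ∀ x ∈ S, ∃ l, s l = x := by
    intro x hx
    refine ⟨Fin.cast hS (S.equivFin ⟨x, hx⟩), ?_⟩
    simp [s]
  let T : Fin (6 * a + 2) → Finset (Fin (6 * a)) := fun j =>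
    univ.filter (fun l => (part G c i).Adj (v j) (s l))
  refine ⟨s, v, T, hs, hv, ?_, ?_, ?_⟩
  · intro j l h
    have h1 := (mem_sdiff.1 (hWs (hvW j))).2
    rw [h] at h1
    exact h1 (hsS l)
  · intro j
    obtain ⟨T0, hT0, hgT⟩ := mem_image.1 (mem_sdiff.1 (hWs (hvW j))).1
    rw [mem_powersetCard] at hT0
    rw [← hT0.2]
    rw [← card_image_of_injective (T j) hs]
    congr 1
    ext x
    simp only [T, mem_image, mem_filter, mem_univ, true_and]
    constructor
    · rintro ⟨l, hl, rfl⟩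
      rw [← hgT] at hl
      exact (hg T0 hT0.1 (s l) (hsS l)).1 hl
    · intro hx
      obtain ⟨l, rfl⟩ := hsurj x (hT0.1 hx)
      refine ⟨l, ?_, rfl⟩
      rw [← hgT]
      exact (hg T0 hT0.1 (s l) (hsS l)).2 hx
  · unfold cst
    rw [Fintype.mem_piFinset]
    intro e
    split_ifs with he
    · unfold prs at he
      rw [mem_image] at he
      obtain ⟨p, hp, rfl⟩ := he
      have h1 := (mem_filter.1 hp).2
      have h2 := (mem_filter.1 h1).2
      rw [mem_singleton]
      exact h2.2
    · exact mem_univ _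

theorem exists_part {V : Type} [Fintype V] (G : SimpleGraph V) (m a : ℕ) (hm : 64 ≤ m)
    (ha : 1 ≤ a) (hn : Fintype.card V ≤ m ^ a) :
    ∃ c : Sym2 V → Fin m, ∀ (i : Fin m) (S : Finset V), S.card = 6 * a → ¬ Shat (part G c i) S := by
  classical
  by_contra hcon
  push Not at hcon
  let t := 6 * a + 2
  let I := (Fin m × (Fin (6 * a) → V)) × ((Fin t → V) × (Fin t → Finset (Fin (6 * a))))
  let J : Finset I := univ.filter (fun x => Function.Injective x.1.2 ∧ Function.Injective x.2.1 ∧
    (∀ j l, x.2.1 j ≠ x.1.2 l) ∧ (∀ j, (x.2.2 j).card = 3 * a))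
  have hcov : (univ : Finset (Sym2 V → Fin m)) ⊆
      J.biUnion (fun x => cst (prs x.1.2 x.2.1 x.2.2) x.1.1) := by
    intro c _
    obtain ⟨i, S, hS, hsh⟩ := hcon c
    obtain ⟨s, v, T, h1, h2, h3, h4, h5⟩ := shat_index G c i a ha S hS hsh
    rw [mem_biUnion]
    exact ⟨((i, s), (v, T)), mem_filter.2 ⟨mem_univ _, h1, h2, h3, h4⟩, h5⟩
  have h1 := (card_le_card hcov).trans card_biUnion_le
  rw [card_univ, Fintype.card_fun, Fintype.card_fin] at h1
  have h2 : (∑ x ∈ J, (cst (prs x.1.2 x.2.1 x.2.2) x.1.1).card) * m ^ (t * (3 * a)) =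
      J.card * m ^ (Fintype.card (Sym2 V)) := by
    rw [sum_mul, sum_congr rfl (g := fun _ => m ^ (Fintype.card (Sym2 V)))]
    · rw [sum_const, smul_eq_mul]
    · intro x hx
      obtain ⟨_, h1, h2, h3, h4⟩ := mem_filter.1 hx
      have h5 := card_cst (prs x.1.2 x.2.1 x.2.2) x.1.1
      rw [card_prs x.1.2 x.2.1 x.2.2 h1 h2 h3 h4] at h5
      exact h5
  have h3 : m ^ (Fintype.card (Sym2 V)) * m ^ (t * (3 * a)) ≤
      J.card * m ^ (Fintype.card (Sym2 V)) := by
    rw [← h2]
    exact Nat.mul_le_mul_right _ h1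
  have hmpos : 0 < m := by omega
  have h4 : m ^ (t * (3 * a)) ≤ J.card := by
    rw [mul_comm (J.card)] at h3
    exact Nat.le_of_mul_le_mul_left h3 (by positivity)
  have h5 : J.card ≤ (m * (Fintype.card V) ^ (6 * a)) *
      ((Fintype.card V) ^ t * (2 ^ (6 * a)) ^ t) := by
    refine (card_le_univ _).trans ?_
    simp only [I, Fintype.card_prod, Fintype.card_fun, Fintype.card_fin, Fintype.card_finset]
    exact le_rfl
  have h6 : (m * (Fintype.card V) ^ (6 * a)) * ((Fintype.card V) ^ t * (2 ^ (6 * a)) ^ t) ≤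
      m ^ (1 + a * (6 * a) + a * t + a * t) := by
    have e1 : (Fintype.card V) ^ (6 * a) ≤ m ^ (a * (6 * a)) := by
      rw [pow_mul m a (6 * a)]
      exact Nat.pow_le_pow_left hn _
    have e2 : (Fintype.card V) ^ t ≤ m ^ (a * t) := by
      rw [pow_mul m a t]
      exact Nat.pow_le_pow_left hn _
    have e3 : (2 ^ (6 * a)) ^ t ≤ m ^ (a * t) := by
      rw [pow_mul 2 6 a, ← pow_mul]
      exact Nat.pow_le_pow_left (by norm_num; exact hm) _
    calc (m * (Fintype.card V) ^ (6 * a)) * ((Fintype.card V) ^ t * (2 ^ (6 * a)) ^ t) ≤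
          (m * m ^ (a * (6 * a))) * (m ^ (a * t) * m ^ (a * t)) := by gcongr
      _ = m ^ (1 + a * (6 * a) + a * t + a * t) := by
          rw [pow_add, pow_add, pow_add, pow_one]
          ring
  have h7 : m ^ (1 + a * (6 * a) + a * t + a * t) < m ^ (t * (3 * a)) := by
    apply Nat.pow_lt_pow_right (by omega)
    simp only [t]
    nlinarith
  omega

/-- VC dimension at most `d` -/
def VCleG {V : Type} (G : SimpleGraph V) (d : ℕ) : Prop :=
  ∀ S : Finset V, Shat G S → S.card ≤ d

theorem Shat.mono {V : Type} {G : SimpleGraph V} {S S' : Finset V} (h : Shat G S) (hs : S' ⊆ S) :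
    Shat G S' := by
  intro T hT
  obtain ⟨v, hv⟩ := h T (hT.trans hs)
  exact ⟨v, fun x hx => hv x (hs hx)⟩

theorem shat_pow {V : Type} [Fintype V] {G : SimpleGraph V} {S : Finset V} (h : Shat G S) :
    2 ^ S.card ≤ Fintype.card V := by
  classical
  have hne : Nonempty V := ⟨(h ∅ (empty_subset _)).choose⟩
  choose! g hg using h
  rw [← card_powerset, ← card_univ]
  refine card_le_card_of_injOn g (fun T _ => mem_univ _) ?_
  intro T hT T' hT' h
  rw [mem_coe, mem_powerset] at hT hT'
  ext x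
  constructor
  · intro hx
    have h1 := (hg T hT x (hT hx)).2 hx
    rw [h] at h1
    exact (hg T' hT' x (hT hx)).1 h1
  · intro hx
    have h1 := (hg T' hT' x (hT' hx)).2 hx
    rw [← h] at h1
    exact (hg T hT x (hT' hx)).1 h1

/-- **Splitting.** -/
theorem split {V : Type} [Fintype V] (G : SimpleGraph V) (m a : ℕ) (hm : 1 ≤ m) (ha : 1 ≤ a)
    (hn : Fintype.card V ≤ m ^ a) :
    ∃ H : Fin m → SimpleGraph V, (∀ i, VCleG (H i) (6 * a)) ∧
      ∀ x y, G.Adj x y ↔ ∃ i, (H i).Adj x y := by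
  classical
  rcases Nat.lt_or_ge m 64 with h | h
  · refine ⟨fun _ => G, fun i S hS => ?_, fun x y => ⟨fun h => ⟨⟨0, hm⟩, h⟩, fun ⟨_, h⟩ => h⟩⟩
    have h1 := shat_pow hS
    have h2 : (2 : ℕ) ^ S.card ≤ 2 ^ (6 * a) := by
      calc 2 ^ S.card ≤ Fintype.card V := h1
        _ ≤ m ^ a := hn
        _ ≤ 64 ^ a := Nat.pow_le_pow_left h.le _
        _ = 2 ^ (6 * a) := by rw [pow_mul]; norm_num
    exact (Nat.pow_le_pow_iff_right (by norm_num)).1 h2
  · obtain ⟨c, hc⟩ := exists_part G m a h ha hn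
    refine ⟨fun i => part G c i, fun i S hS => ?_, fun x y => ⟨fun h => ⟨c s(x, y), h, rfl⟩,
      fun ⟨_, h⟩ => h.1⟩⟩
    by_contra hcon
    push Not at hcon
    obtain ⟨S', hS', hS'c⟩ := exists_subset_card_eq hcon.le
    exact hc i S' hS'c (hS.mono hS')

end Pool.Agent.H700.RU
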