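import Pool.Agent.H700.RU.Gap
import Pool.Agent.H700.RU.Part
import Pool.Graph.R_seed8.H818R2.Ram.Erdos

/-!
# Final forms
-/

set_option autoImplicit false

namespace Pool.Agent.H700.RU

open Finset Real
open Pool.Agent.R533.VC (VCdim)

/-- VC dimension of the rows of a relation -/
def VCle {V : Type} (R : V → V → Prop) (d : ℕ) : Prop :=
  ∀ S : Finset V, (∀ T ⊆ S, ∃ v, ∀ x ∈ S, (R v x ↔ x ∈ T)) → S.card ≤ d

theorem vcdim_of {V : Type} {R : V → V → Prop} [∀ x y, Decidable (R x y)] {d : ℕ} (h : VCle R d) :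
    VCdim (fun x v => decide (R v x)) d := by
  classical
  intro k x hx
  have hinj : Function.Injective x := by
    intro i j hij
    by_contra hne
    obtain ⟨y, hy⟩ := hx (fun l => decide (l = i))
    have h1 := hy i
    have h2 := hy j
    simp only [decide_true, decide_eq_true_eq] at h1
    have h3 : decide (j = i) = false := by simp [Ne.symm hne]
    rw [h3, ← hij] at h2
    simp only [decide_eq_false_iff_not] at h2
    exact h2 h1
  have h1 := h (univ.image x) (fun T _ => by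
    obtain ⟨y, hy⟩ := hx (fun l => decide (x l ∈ T))
    refine ⟨y, fun z hz => ?_⟩
    obtain ⟨l, _, rfl⟩ := mem_image.1 hz
    have h2 := hy l
    rw [decide_eq_decide] at h2
    exact h2)
  rw [card_image_of_injective _ hinj, card_univ, Fintype.card_fin] at h1
  exact h1

/-- the probability that `x` and `y` are related -/
noncomputable def prob {V Ω : Type} [Fintype Ω] (R : Ω → V → V → Prop) (x y : V) : ℝ :=
  ({ω | R ω x y}.ncard : ℝ) / Fintype.card Ω

theorem ncard_filter {Ω : Type} [Fintype Ω] (p : Ω → Prop) [DecidablePred p] :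
    ({ω | p ω}.ncard) = (univ.filter p).card := by
  rw [← Set.ncard_coe_finset]
  congr 1
  ext ω
  simp

theorem frac_bound {V Ω : Type} [Fintype V] [Nonempty V] [Fintype Ω] [Nonempty Ω]
    (G : SimpleGraph V) (R : Ω → V → V → Prop) (d k : ℕ) (m : ℝ) (hd : 1 ≤ d) (hk : 2 ≤ k)
    (hm : 1 ≤ m) (hR : ∀ ω, VCle (R ω) d) (hsub : ∀ ω x y, x ≠ y → R ω x y → G.Adj x y)
    (hcov : ∀ x y, G.Adj x y → 1 / m ≤ prob R x y ∨ 1 / m ≤ prob R y x)
    (hred : G.CliqueFree k) (hblue : Gᶜ.CliqueFree k) :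
    logb 2 (Fintype.card V) ≤ 153 * (d * logb 2 (m * k)) *
      (1 + logb 2 (2 + k / (d * logb 2 (m * k))) / logb 2 (d + 1)) := by
  classical
  have hm0 : 0 < m := by linarith
  have hN : (0 : ℝ) < Fintype.card Ω := by exact_mod_cast Fintype.card_pos
  have hp : ∀ x y, 1 / m ≤ prob R x y →
      (Fintype.card Ω : ℝ) ≤ m * ((univ.filter (fun ω => decide (R ω x y) = true)).card : ℝ) := by
    intro x y h
    unfold prob at h
    rw [div_le_div_iff₀ hm0 hN, one_mul, ncard_filter] at h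
    simp only [decide_eq_true_eq]
    linarith
  refine upper_union G (fun ω x v => decide (R ω v x)) d k m hd hk hm (fun ω => vcdim_of (hR ω))
    (fun ω x y hxy h => (hsub ω y x hxy.symm (by simpa using h)).symm) ?_ inferInstance hred hblue
  intro x y hxy
  rcases hcov x y hxy with h | h
  · exact Or.inr (hp x y h)
  · exact Or.inl (hp y x h)

theorem gap_bound {V Ω : Type} [Fintype V] [Nonempty V] [Fintype Ω] [Nonempty Ω]
    (G : SimpleGraph V) (R : Ω → V → V → Prop) (d k g : ℕ) (m : ℝ) (hd : 1 ≤ d) (hk : 2 ≤ k)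
    (hm : 1 ≤ m) (hg : 1 ≤ g) (hR : ∀ ω, VCle (R ω) d)
    (hsub : ∀ x y, x ≠ y → ¬ G.Adj x y → prob R x y ≤ (1 - 1 / (g : ℝ)) / m)
    (hcov : ∀ x y, G.Adj x y → 1 / m ≤ prob R x y ∨ 1 / m ≤ prob R y x)
    (hred : G.CliqueFree k) (hblue : Gᶜ.CliqueFree k) :
    logb 2 (Fintype.card V) ≤ 8000 * (g : ℝ) ^ 2 * d * logb 2 k ^ 3 * (1 + logb 2 (m * d)) := by
  classical
  have hm0 : 0 < m := by linarith
  have hN : (0 : ℝ) < Fintype.card Ω := by exact_mod_cast Fintype.card_pos
  have hp : ∀ x y, 1 / m ≤ prob R x y →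
      (Fintype.card Ω : ℝ) ≤ m * ((univ.filter (fun ω => decide (R ω x y) = true)).card : ℝ) := by
    intro x y h
    unfold prob at h
    rw [div_le_div_iff₀ hm0 hN, one_mul, ncard_filter] at h
    simp only [decide_eq_true_eq]
    linarith
  refine upper_gap G (fun ω x v => decide (R ω v x)) d k g m hd hk hm hg
    (fun ω => vcdim_of (hR ω)) ?_ ?_ inferInstance hred hblue
  · intro x y hxy hadj
    have h := hsub y x hxy.symm (fun h => hadj h.symm)
    unfold prob at h
    rw [div_le_div_iff₀ hN hm0, ncard_filter] at h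
    simp only [decide_eq_true_eq]
    linarith
  · intro x y hxy
    rcases hcov x y hxy with h | h
    · exact Or.inr (hp x y h)
    · exact Or.inl (hp y x h)

/-- the red graph is a union of `m` graphs of VC dimension at most `d` -/
def UnionVC {V : Type} (G : SimpleGraph V) (m d : ℕ) : Prop :=
  ∃ H : Fin m → SimpleGraph V, (∀ i, VCle (H i).Adj d) ∧ ∀ x y, G.Adj x y ↔ ∃ i, (H i).Adj x y

/-- the same with probabilities -/
def FracVC {V : Type} (G : SimpleGraph V) (m : ℝ) (d : ℕ) : Prop :=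
  ∃ (Ω : Type) (_ : Fintype Ω) (_ : Nonempty Ω) (R : Ω → V → V → Prop),
    (∀ ω, VCle (R ω) d) ∧ (∀ ω x y, x ≠ y → R ω x y → G.Adj x y) ∧
    ∀ x y, G.Adj x y → 1 / m ≤ prob R x y ∨ 1 / m ≤ prob R y x

theorem UnionVC.frac {V : Type} {G : SimpleGraph V} {m d : ℕ} (hm : 1 ≤ m) (h : UnionVC G m d) :
    FracVC G m d := by
  classical
  obtain ⟨H, h1, h2⟩ := h
  refine ⟨Fin m, inferInstance, ⟨⟨0, hm⟩⟩, fun i => (H i).Adj, h1,
    fun i x y _ h => (h2 x y).2 ⟨i, h⟩, fun x y hxy => Or.inl ?_⟩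
  obtain ⟨i, hi⟩ := (h2 x y).1 hxy
  unfold prob
  rw [Fintype.card_fin, ncard_filter]
  have hm' : (0 : ℝ) < m := by exact_mod_cast hm
  rw [div_le_div_iff_of_pos_right hm']
  have : 1 ≤ (univ.filter (fun i => (H i).Adj x y)).card :=
    card_pos.2 ⟨i, mem_filter.2 ⟨mem_univ _, hi⟩⟩
  exact_mod_cast this

theorem UnionVC.mono {V : Type} {G : SimpleGraph V} {m d d' : ℕ} (h : UnionVC G m d)
    (hd : d ≤ d') : UnionVC G m d' := by
  obtain ⟨H, h1, h2⟩ := h
  exact ⟨H, fun i S hS => (h1 i S hS).trans hd, h2⟩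

theorem union_all {V : Type} [Fintype V] (G : SimpleGraph V) (m a : ℕ) (hm : 1 ≤ m) (ha : 1 ≤ a)
    (hn : Fintype.card V ≤ m ^ a) : UnionVC G m (6 * a) := by
  obtain ⟨H, h1, h2⟩ := split G m a hm ha hn
  exact ⟨H, fun i S hS => h1 i S hS, h2⟩

/-- no monochromatic `K_k` -/
def NoMono {V : Type} (G : SimpleGraph V) (k : ℕ) : Prop := G.CliqueFree k ∧ Gᶜ.CliqueFree k

/-- the largest order of a colouring without monochromatic `K_k` whose red graph is a union of `m`
graphs of VC dimension at most `d` -/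
noncomputable def maxOrder (m d k : ℕ) : ℕ :=
  sSup {n : ℕ | ∃ G : SimpleGraph (Fin n), NoMono G k ∧ UnionVC G m d}

theorem bdd (m d k : ℕ) (hk : 1 ≤ k) :
    BddAbove {n : ℕ | ∃ G : SimpleGraph (Fin n), NoMono G k ∧ UnionVC G m d} := by
  refine ⟨4 ^ k, ?_⟩
  rintro n ⟨G, hG, _⟩
  have := trivial_bound G k hk hG.1 hG.2
  rwa [Fintype.card_fin] at this

theorem exists_noMono (n k : ℕ) (hk : 3 ≤ k) (hn : n ^ 2 ≤ 2 ^ k) :
    ∃ G : SimpleGraph (Fin n), NoMono G k := by
  classical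
  have h1 := Pool.Agent.H818R2.Ram.erdos_lower hk
  have h2 : n < Pool.Agent.H818R2.Ram.R k k := by
    by_contra hcon
    push Not at hcon
    have := Nat.pow_le_pow_left hcon 2
    omega
  obtain ⟨G, h3, h4⟩ := Pool.Agent.H818R2.Ram.exists_coloring h2
  exact ⟨G, fun s hs => h3 ⟨s, subset_univ _, hs⟩, fun s hs => h4 ⟨s, subset_univ _, hs⟩⟩

/-- the order of magnitude of `maxOrder` -/
theorem order_bounds (ε : ℝ) (hε0 : 0 < ε) (m d k : ℕ) (hm : 2 ≤ m) (hd : 6 ≤ d) (hk : 3 ≤ k)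
    (hεd : (k : ℝ) ^ ε ≤ d) (hεm : (k : ℝ) ^ ε ≤ m) (hdk : d * logb 2 m ≤ k) :
    (1 / 12) * (d * logb 2 m) ≤ logb 2 (maxOrder m d k) ∧
    logb 2 (maxOrder m d k) ≤ 153 * (1 + 1 / ε) * (1 + 2 / ε) * (d * logb 2 m) := by
  have hmr : (2 : ℝ) ≤ m := by exact_mod_cast hm
  have hdr : (6 : ℝ) ≤ d := by exact_mod_cast hd
  have hkr : (3 : ℝ) ≤ k := by exact_mod_cast hk
  have hlm : 1 ≤ logb 2 (m : ℝ) := by
    rw [Real.le_logb_iff_rpow_le (by norm_num) (by linarith)]
    simpa using hmr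
  have hlk : 1 ≤ logb 2 (k : ℝ) := by
    rw [Real.le_logb_iff_rpow_le (by norm_num) (by linarith)]
    simp
    linarith
  obtain ⟨a, ha⟩ : ∃ a : ℕ, a = d / 6 := ⟨_, rfl⟩
  have ha1 : 1 ≤ a := by omega
  have ha6 : 6 * a ≤ d := by omega
  have hd12 : d ≤ 12 * a := by omega
  have ha6r : (6 : ℝ) * a ≤ d := by exact_mod_cast ha6
  have hd12r : (d : ℝ) ≤ 12 * a := by exact_mod_cast hd12
  have hn2 : (m ^ a) ^ 2 ≤ 2 ^ k := by
    have h1 : logb 2 (((m : ℝ) ^ a) ^ 2) ≤ k := by
      rw [Real.logb_pow, Real.logb_pow]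
      push_cast
      nlinarith
    rw [Real.logb_le_iff_le_rpow (by norm_num) (by positivity), Real.rpow_natCast] at h1
    exact_mod_cast h1
  obtain ⟨G, hG⟩ := exists_noMono (m ^ a) k hk hn2
  have hmem : m ^ a ∈ {n : ℕ | ∃ G : SimpleGraph (Fin n), NoMono G k ∧ UnionVC G m d} :=
    ⟨G, hG, (union_all G m a (by omega) ha1 (by simp)).mono ha6⟩
  have hle : m ^ a ≤ maxOrder m d k := le_csSup (bdd m d k (by omega)) hmem
  have hpos : 0 < m ^ a := by positivity
  constructor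
  · have h1 : ((m : ℝ) ^ a) ≤ (maxOrder m d k : ℝ) := by exact_mod_cast hle
    have h2 := Real.logb_le_logb_of_le (b := 2) (by norm_num) (by positivity) h1
    rw [Real.logb_pow] at h2
    nlinarith
  · obtain ⟨G', hG', hU⟩ := Nat.sSup_mem ⟨m ^ a, hmem⟩ (bdd m d k (by omega))
    change SimpleGraph (Fin (maxOrder m d k)) at G'
    have hne : Nonempty (Fin (maxOrder m d k)) := ⟨⟨0, by omega⟩⟩
    obtain ⟨Ω, i1, i2, R, h1, h2, h3⟩ := hU.frac (by omega)
    have hb := frac_bound G' R d k m (by omega) (by omega) (by linarith) h1 h2 h3 hG'.1 hG'.2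
    rw [Fintype.card_fin] at hb
    refine hb.trans ?_
    have e0 : logb 2 (m * k : ℝ) = logb 2 (m : ℝ) + logb 2 (k : ℝ) :=
      Real.logb_mul (by linarith) (by linarith)
    have e1 : ε * logb 2 (k : ℝ) ≤ logb 2 (m : ℝ) := by
      have h4 := Real.logb_le_logb_of_le (b := 2) (by norm_num) (by positivity) hεm
      rwa [Real.logb_rpow_eq_mul_logb_of_pos (by linarith)] at h4
    have e2 : ε * logb 2 (k : ℝ) ≤ logb 2 (d + 1 : ℝ) := by
      have h4 := Real.logb_le_logb_of_le (b := 2) (by norm_num) (by positivity)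
        (hεd.trans (by linarith : (d : ℝ) ≤ d + 1))
      rwa [Real.logb_rpow_eq_mul_logb_of_pos (by linarith)] at h4
    have e3 : logb 2 (m * k : ℝ) ≤ (1 + 1 / ε) * logb 2 (m : ℝ) := by
      rw [e0]
      have : logb 2 (k : ℝ) ≤ 1 / ε * logb 2 (m : ℝ) := by
        rw [one_div, inv_mul_eq_div, le_div_iff₀ hε0]
        linarith
      linarith
    have hlmk : 1 ≤ logb 2 (m * k : ℝ) := by
      rw [e0]
      linarith
    obtain ⟨D, hD⟩ : ∃ D : ℝ, D = d * logb 2 (m * k : ℝ) := ⟨_, rfl⟩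
    rw [← hD]
    have hD1 : 1 ≤ D := by
      rw [hD]
      nlinarith
    have hDle : D ≤ (1 + 1 / ε) * (d * logb 2 m) := by
      rw [hD]
      calc (d : ℝ) * logb 2 (m * k : ℝ) ≤ d * ((1 + 1 / ε) * logb 2 (m : ℝ)) :=
            mul_le_mul_of_nonneg_left e3 (by linarith)
        _ = (1 + 1 / ε) * (d * logb 2 m) := by ring
    have hL : 1 ≤ logb 2 (d + 1 : ℝ) := by
      rw [Real.le_logb_iff_rpow_le (by norm_num) (by linarith)]
      simp
      linarith
    have e4 : logb 2 (2 + k / D) ≤ 2 * logb 2 (k : ℝ) := by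
      have h4 : 2 + k / D ≤ (k : ℝ) ^ (2 : ℕ) := by
        have : (k : ℝ) / D ≤ k := div_le_self (by linarith) hD1
        nlinarith
      have h5 := Real.logb_le_logb_of_le (b := 2) (by norm_num) (by positivity) h4
      rw [Real.logb_pow] at h5
      push_cast at h5
      exact h5
    have e5 : logb 2 (2 + k / D) / logb 2 (d + 1 : ℝ) ≤ 2 / ε := by
      rw [div_le_div_iff₀ (by linarith) hε0]
      nlinarith
    have hDpos : 0 ≤ 153 * D := by linarith
    calc 153 * D * (1 + logb 2 (2 + k / D) / logb 2 (d + 1 : ℝ)) ≤ 153 * D * (1 + 2 / ε) :=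
          mul_le_mul_of_nonneg_left (by linarith) hDpos
      _ ≤ 153 * ((1 + 1 / ε) * (d * logb 2 m)) * (1 + 2 / ε) := by
          apply mul_le_mul_of_nonneg_right _ (by positivity)
          linarith
      _ = 153 * (1 + 1 / ε) * (1 + 2 / ε) * (d * logb 2 m) := by ring

/-- exponentially large colourings -/
theorem exponential {V : Type} [Fintype V] (G : SimpleGraph V) (θ m : ℝ) (d k : ℕ) (hθ : 0 < θ)
    (hm : 1 ≤ m) (hd : 1 ≤ d) (hk : 2 ≤ k) (hG : NoMono G k) (hn : 2 ^ (θ * k) ≤ (Fintype.card V : ℝ))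
    (hF : FracVC G m d) : θ * k ≤ 3000 * logb 2 (4 / θ) * (d * logb 2 (m * k)) := by
  classical
  have hkr : (2 : ℝ) ≤ k := by exact_mod_cast hk
  have hdr : (1 : ℝ) ≤ d := by exact_mod_cast hd
  have hVpos : (0 : ℝ) < Fintype.card V := lt_of_lt_of_le (by positivity) hn
  have hV : Nonempty V := by
    rw [← Fintype.card_pos_iff]
    exact_mod_cast hVpos
  obtain ⟨Ω, i1, i2, R, h1, h2, h3⟩ := hF
  have hb := frac_bound G R d k m hd hk hm h1 h2 h3 hG.1 hG.2
  have hθk : θ * k ≤ logb 2 (Fintype.card V) := by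
    rw [Real.le_logb_iff_rpow_le (by norm_num) hVpos]
    exact hn
  -- `θ ≤ 2`
  have hθ2 : θ ≤ 2 := by
    have h4 := trivial_bound G k (by omega) hG.1 hG.2
    have h5 : (Fintype.card V : ℝ) ≤ 4 ^ k := by exact_mod_cast h4
    have h6 : logb 2 (Fintype.card V) ≤ 2 * k := by
      rw [Real.logb_le_iff_le_rpow (by norm_num) hVpos]
      have h7 : (2 : ℝ) ^ (2 * (k : ℝ)) = 4 ^ k := by
        rw [Real.rpow_mul (by norm_num), Real.rpow_natCast]
        norm_num
      rw [h7]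
      exact h5
    have h8 : θ * k ≤ 2 * k := hθk.trans h6
    exact le_of_mul_le_mul_right h8 (by linarith)
  obtain ⟨L, hL⟩ : ∃ L : ℝ, L = logb 2 (4 / θ) := ⟨_, rfl⟩
  rw [← hL]
  have hL1 : 1 ≤ L := by
    rw [hL, Real.le_logb_iff_rpow_le (by norm_num) (by positivity), Real.rpow_one,
      le_div_iff₀ hθ]
    linarith
  have hlmk : 1 ≤ logb 2 (m * k : ℝ) := by
    rw [Real.le_logb_iff_rpow_le (by norm_num) (by positivity), Real.rpow_one]
    nlinarith
  obtain ⟨D, hD⟩ : ∃ D : ℝ, D = d * logb 2 (m * k : ℝ) := ⟨_, rfl⟩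
  rw [← hD] at hb ⊢
  have hD1 : 1 ≤ D := by
    rw [hD]
    nlinarith
  have hLd : 1 ≤ logb 2 (d + 1 : ℝ) := by
    rw [Real.le_logb_iff_rpow_le (by norm_num) (by linarith)]
    simp
    linarith
  by_contra hcon
  push Not at hcon
  -- `u0 = θ k / (3000 L)`, `D < u0`
  obtain ⟨u0, hu0⟩ : ∃ u0 : ℝ, u0 = θ * k / (3000 * L) := ⟨_, rfl⟩
  have hDu : D < u0 := by
    rw [hu0, lt_div_iff₀ (by linarith)]
    linarith
  have hu0pos : 0 < u0 := by linarith
  have hu0k : u0 ≤ k := by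
    rw [hu0, div_le_iff₀ (by linarith)]
    nlinarith
  have h4 : logb 2 (2 + k / D) ≤ logb 2 3 + logb 2 (k / u0) + logb 2 (u0 / D) := by
    rw [← Real.logb_mul (by norm_num) (by positivity), ← Real.logb_mul (by positivity) (by positivity)]
    apply Real.logb_le_logb_of_le (by norm_num) (by positivity)
    have e1 : 3 * (k / u0) * (u0 / D) = 3 * (k / D) := by
      field_simp
    rw [e1]
    have e2 : 1 ≤ (k : ℝ) / D := by
      rw [le_div_iff₀ (by linarith), one_mul]
      linarith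
    linarith
  have h5 : D * logb 2 (u0 / D) ≤ u0 := by
    have e1 : logb 2 (u0 / D) ≤ u0 / D := by
      have e2 : 1 ≤ u0 / D := by
        rw [le_div_iff₀ (by linarith), one_mul]
        exact hDu.le
      have e3 : logb 2 (u0 / D) ≤ logb 2 (u0 / D + 1) :=
        Real.logb_le_logb_of_le (by norm_num) (by positivity) (by linarith)
      exact e3.trans (logb_two_le_self e2)
    calc D * logb 2 (u0 / D) ≤ D * (u0 / D) := mul_le_mul_of_nonneg_left e1 (by linarith)
      _ = u0 := by field_simp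
  have h6 : logb 2 ((k : ℝ) / u0) ≤ 12 + 2 * L := by
    have e1 : (k : ℝ) / u0 = 750 * L * (4 / θ) := by
      rw [hu0]
      field_simp
      ring
    rw [e1, Real.logb_mul (by positivity) (by positivity), Real.logb_mul (by norm_num) (by positivity),
      ← hL]
    have e2 : logb 2 (750 : ℝ) ≤ 12 := by
      rw [Real.logb_le_iff_le_rpow (by norm_num) (by norm_num)]
      norm_num
    have e3 : logb 2 L ≤ L := by
      have e4 : logb 2 L ≤ logb 2 (L + 1) :=
        Real.logb_le_logb_of_le (by norm_num) (by linarith) (by linarith)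
      exact e4.trans (logb_two_le_self hL1)
    linarith
  have h7 : logb 2 (3 : ℝ) ≤ 2 := by
    rw [Real.logb_le_iff_le_rpow (by norm_num) (by norm_num)]
    norm_num
  have h8 : logb 2 (2 + k / D) / logb 2 (d + 1 : ℝ) ≤ logb 2 (2 + k / D) := by
    apply div_le_self _ hLd
    apply Real.logb_nonneg (by norm_num)
    have : 0 ≤ (k : ℝ) / D := by positivity
    linarith
  have h9 : D * logb 2 (2 + k / D) ≤ D * (14 + 2 * L) + u0 := by
    calc D * logb 2 (2 + k / D) ≤ D * (logb 2 3 + logb 2 (k / u0) + logb 2 (u0 / D)) :=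
          mul_le_mul_of_nonneg_left h4 (by linarith)
      _ = D * (logb 2 3 + logb 2 (k / u0)) + D * logb 2 (u0 / D) := by ring
      _ ≤ D * (14 + 2 * L) + u0 :=
          add_le_add (mul_le_mul_of_nonneg_left (by linarith) (by linarith)) h5
  have h10 : θ * k ≤ 153 * (D * (15 + 2 * L) + u0) := by
    calc θ * k ≤ 153 * D * (1 + logb 2 (2 + k / D) / logb 2 (d + 1 : ℝ)) := hθk.trans hb
      _ ≤ 153 * D * (1 + logb 2 (2 + k / D)) :=
          mul_le_mul_of_nonneg_left (by linarith) (by linarith)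
      _ = 153 * (D + D * logb 2 (2 + k / D)) := by ring
      _ ≤ 153 * (D * (15 + 2 * L) + u0) := by linarith
  have h11 : D * (15 + 2 * L) + u0 ≤ u0 * (18 * L) := by
    have : D * (15 + 2 * L) ≤ u0 * (15 + 2 * L) := mul_le_mul_of_nonneg_right hDu.le (by linarith)
    nlinarith
  have h12 : u0 * (3000 * L) = θ * k := by
    rw [hu0]
    field_simp
  have h13 : 0 < u0 * L := by positivity
  nlinarith

end Pool.Agent.H700.RU
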