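import Pool.Agent.H700.RU.Upper
import Pool.Agent.H700.LR.Sbp

/-!
# The upper bound for relations of small VC dimension with a gap
-/

set_option autoImplicit false

namespace Pool.Agent.H700.RU

open Finset Real
open Pool.Agent.H818R2.Ram (HasRed HasBlue)
open Pool.Agent.R533.VC (Growth VCdim growth_of_vc)
open Pool.Agent.H700.LR (gap_pow)

/-- `n ≤ 4 ^ k` -/
theorem trivial_bound {V : Type} [Fintype V] [DecidableEq V] (G : SimpleGraph V)
    (k : ℕ) (hk : 1 ≤ k) (hred : G.CliqueFree k) (hblue : Gᶜ.CliqueFree k) :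
    Fintype.card V ≤ 4 ^ k := by
  have h := cond_start G k k hk hk univ (fun h => hred _ h.choose_spec.2)
    (fun h => hblue _ h.choose_spec.2)
  rw [card_univ] at h
  refine h.trans ?_
  calc (k - 1 + (k - 1)).choose (k - 1) ≤ 2 ^ (k - 1 + (k - 1)) := Nat.choose_le_two_pow _ _
    _ ≤ 2 ^ (2 * k) := Nat.pow_le_pow_right (by norm_num) (by omega)
    _ = 4 ^ k := by rw [pow_mul]; norm_num

/-- **Unions**, in the fractional form -/
theorem upper_union {V Ω : Type} [Fintype V] [DecidableEq V] [Fintype Ω] [Nonempty Ω]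
    (G : SimpleGraph V) (f : Ω → V → V → Bool) (d k : ℕ) (m : ℝ) (hd : 1 ≤ d) (hk : 2 ≤ k)
    (hm : 1 ≤ m) (hf : ∀ ω, VCdim (f ω) d)
    (hsub : ∀ ω x y, x ≠ y → f ω x y = true → G.Adj x y)
    (hcov : ∀ x y, G.Adj x y →
      (Fintype.card Ω : ℝ) ≤ m * ((univ.filter (fun ω => f ω x y = true)).card : ℝ) ∨
      (Fintype.card Ω : ℝ) ≤ m * ((univ.filter (fun ω => f ω y x = true)).card : ℝ))
    (hV : Nonempty V) (hred : G.CliqueFree k) (hblue : Gᶜ.CliqueFree k) :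
    logb 2 (Fintype.card V) ≤ 153 * (d * logb 2 (m * k)) *
      (1 + logb 2 (2 + k / (d * logb 2 (m * k))) / logb 2 (d + 1)) := by
  classical
  have hm0 : 0 < m := by linarith
  refine numeric (Fintype.card V) d k m hd hk hm Fintype.card_pos
    (trivial_bound G k (by omega) hred hblue) ?_
  intro β ℓ T r a hℓ hβ hT hr ha hak
  refine bound_nat G f d 1 (1 / m) 0 (by positivity) le_rfl (fun ω => growth_of_vc _ _ (hf ω))
    ?_ ?_ k β ℓ T r a (by omega) (by simp) hℓ hβ hT hr ha hak hred hblue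
  · intro x y hxy
    rcases hcov x y hxy with h | h
    · left
      rw [one_div, inv_mul_le_iff₀ hm0]
      exact h
    · right
      rw [one_div, inv_mul_le_iff₀ hm0]
      exact h
  · intro x y hxy hadj
    have : (univ.filter (fun ω => f ω x y = true)) = ∅ := by
      rw [filter_eq_empty_iff]
      intro ω _ h
      exact hadj (hsub ω x y hxy h)
    rw [this]
    simp

theorem E_bound (ℓ t d β T δ : ℝ) (hℓ0 : 0 ≤ ℓ) (ht9 : 9 ≤ t) (hd : 1 ≤ d) (hδ : 0 ≤ δ)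
    (hβ : 2 * β + 7 ≤ t) (hT : T ≤ t + δ + 2) (_hβ1 : 1 ≤ β) :
    ℓ * t + 5 + β + 1 + (2 * (t * d) * (ℓ * t + 5 + β + β + 6 + T) + 2) +
      (ℓ * t + 5 + β + 2 + 1) * 2 ≤ (t * d) * (t * (3 * ℓ + 8 + 2 * δ)) := by
  obtain ⟨P, hP⟩ : ∃ P : ℝ, P = t * d := ⟨_, rfl⟩
  have hPt : t ≤ P := by
    rw [hP]
    exact le_mul_of_one_le_right (by linarith) hd
  rw [← hP]
  have hP9 : 9 ≤ P := ht9.trans hPt
  have h0 : P * (ℓ * t + 5 + β + β + 6 + T) ≤ P * (ℓ * t + 2 * t + 6 + δ) :=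
    mul_le_mul_of_nonneg_left (by linarith) (by linarith)
  have h1 : 0 ≤ (P - 3) * (ℓ * t) := mul_nonneg (by linarith) (mul_nonneg hℓ0 (by linarith))
  have h2 : 0 ≤ P * ((2 * t - 2) * δ) :=
    mul_nonneg (by linarith) (mul_nonneg (by linarith) hδ)
  have h3 : 9 * (4 * t - 12) ≤ P * (4 * t - 12) := mul_le_mul_of_nonneg_right hP9 (by linarith)
  have e1 : P * (t * (3 * ℓ + 8 + 2 * δ)) = 2 * (P * (ℓ * t + 2 * t + 6 + δ)) +
      (P * (ℓ * t) + P * (4 * t - 12) + P * ((2 * t - 2) * δ)) := by ring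
  have e2 : (P - 3) * (ℓ * t) = P * (ℓ * t) - 3 * (ℓ * t) := by ring
  rw [e1]
  linarith

set_option maxHeartbeats 2000000 in
theorem numeric_gap (n d k g : ℕ) (m : ℝ) (hd : 1 ≤ d) (hk : 2 ≤ k) (hm : 1 ≤ m) (hn : 1 ≤ n)
    (hg : 1 ≤ g)
    (hb : ∀ β ℓ T t : ℕ, 128 * (k : ℝ) * k * (1 - 1 / (g : ℝ)) ^ t ≤ 1 → 1 ≤ (1 / m) * 2 ^ ℓ →
      k ≤ 2 ^ β → 2 * (t * d) ≤ 2 ^ T → ∃ i : ℕ, (∀ i' < i, 2 ^ i' * 1 < k) ∧ n ≤
      2 ^ (i * ((ℓ * t + 5 + β + 1 + (2 * (t * d) * (ℓ * t + 5 + β + β + 6 + T) + 2)) +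
        (ℓ * t + 5 + β + 2 + 1) * 2)) * (4 * k * (1 - 1 + (k - 1)).choose (1 - 1))) :
    logb 2 n ≤ 8000 * (g : ℝ) ^ 2 * d * logb 2 k ^ 3 * (1 + logb 2 (m * d)) := by
  have hdr : (1 : ℝ) ≤ d := by exact_mod_cast hd
  have hkr : (2 : ℝ) ≤ k := by exact_mod_cast hk
  have hnr : (1 : ℝ) ≤ n := by exact_mod_cast hn
  have hgr : (1 : ℝ) ≤ g := by exact_mod_cast hg
  obtain ⟨K, hK⟩ : ∃ K : ℝ, K = logb 2 (k : ℝ) := ⟨_, rfl⟩
  obtain ⟨μ, hμ⟩ : ∃ μ : ℝ, μ = logb 2 m := ⟨_, rfl⟩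
  obtain ⟨δ, hδ⟩ : ∃ δ : ℝ, δ = logb 2 (d : ℝ) := ⟨_, rfl⟩
  have hμ0 : 0 ≤ μ := by
    rw [hμ]
    exact Real.logb_nonneg (by norm_num) hm
  have hδ0 : 0 ≤ δ := by
    rw [hδ]
    exact Real.logb_nonneg (by norm_num) hdr
  have hK1 : 1 ≤ K := by
    rw [hK, Real.le_logb_iff_rpow_le (by norm_num) (by linarith)]
    simpa using hkr
  have hmd : logb 2 (m * d) = μ + δ := by
    rw [hμ, hδ, Real.logb_mul (by linarith) (by linarith)]
  rw [hmd, ← hK]
  obtain ⟨β, hβ⟩ : ∃ β : ℕ, β = Nat.clog 2 k := ⟨_, rfl⟩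
  obtain ⟨ℓ, hℓ⟩ : ∃ ℓ : ℕ, ℓ = ⌈μ⌉₊ := ⟨_, rfl⟩
  obtain ⟨t, ht⟩ : ∃ t : ℕ, t = g * (2 * β + 7) := ⟨_, rfl⟩
  obtain ⟨T, hT⟩ : ∃ T : ℕ, T = Nat.clog 2 (2 * (t * d)) := ⟨_, rfl⟩
  have hβ1 : 1 ≤ β := by
    rw [hβ]
    exact Nat.clog_pos (by norm_num) (by omega)
  have hβr1 : (1 : ℝ) ≤ β := by exact_mod_cast hβ1
  have ht9 : 9 ≤ t := by
    rw [ht]
    nlinarith
  have ht9r : (9 : ℝ) ≤ t := by exact_mod_cast ht9
  have hkβ : k ≤ 2 ^ β := by
    rw [hβ]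
    exact Nat.le_pow_clog (by norm_num) _
  have hβr : (β : ℝ) ≤ K + 1 := by
    rw [hβ, hK]
    exact clog_le' (by omega)
  have hℓr : (ℓ : ℝ) ≤ μ + 1 := by
    rw [hℓ]
    exact (Nat.ceil_lt_add_one hμ0).le
  have htr : (t : ℝ) = g * (2 * β + 7) := by
    rw [ht]
    push_cast
    ring
  have htK : (t : ℝ) ≤ 11 * g * K := by
    rw [htr]
    nlinarith
  have htβ : 2 * (β : ℝ) + 7 ≤ t := by
    rw [htr]
    exact le_mul_of_one_le_left (by positivity) hgr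
  have hTr : (T : ℝ) ≤ logb 2 (t : ℝ) + δ + 2 := by
    have htd : 1 ≤ 2 * (t * d) := by nlinarith
    have h5 : (T : ℝ) ≤ logb 2 ((2 * (t * d) : ℕ) : ℝ) + 1 := by
      rw [hT]
      exact clog_le' htd
    have h6 : logb 2 ((2 * (t * d) : ℕ) : ℝ) = logb 2 (t : ℝ) + δ + 1 := by
      push_cast
      rw [Real.logb_mul (by norm_num) (by positivity), Real.logb_mul (by positivity) (by positivity),
        Real.logb_self_eq_one (by norm_num), hδ]
      ring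
    linarith
  have hlt : logb 2 (t : ℝ) ≤ t := by
    have h5 : logb 2 (t : ℝ) ≤ logb 2 ((t : ℝ) + 1) :=
      Real.logb_le_logb_of_le (by norm_num) (by linarith) (by linarith)
    exact h5.trans (logb_two_le_self (by linarith))
  obtain ⟨i, hi, hbound⟩ := hb β ℓ T t (by
    have h5 : 2 ^ (2 * β + 7) * (1 - 1 / (g : ℝ)) ^ t ≤ 1 := by
      rw [ht, pow_mul, ← mul_pow]
      apply pow_le_one₀ _ (gap_pow g hg)
      have : 1 / (g : ℝ) ≤ 1 := by
        rw [div_le_one (by linarith)]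
        exact hgr
      have h6 : 0 ≤ 1 - 1 / (g : ℝ) := by linarith
      positivity
    have h6 : 128 * (k : ℝ) * k ≤ 2 ^ (2 * β + 7) := by
      have h7 : (k : ℝ) ≤ 2 ^ β := by exact_mod_cast hkβ
      have h8 : (2 : ℝ) ^ (2 * β + 7) = 128 * (2 ^ β) * (2 ^ β) := by
        rw [pow_add, mul_comm 2 β, pow_mul]
        norm_num
        ring
      rw [h8]
      have : (0 : ℝ) < 2 ^ β := by positivity
      nlinarith
    have h7 : 0 ≤ (1 - 1 / (g : ℝ)) ^ t := by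
      have : 1 / (g : ℝ) ≤ 1 := by
        rw [div_le_one (by linarith)]
        exact hgr
      have h6 : 0 ≤ 1 - 1 / (g : ℝ) := by linarith
      positivity
    exact (mul_le_mul_of_nonneg_right h6 h7).trans h5) (by
    have h5 : m ≤ 2 ^ ℓ := by
      have h6 : logb 2 m ≤ ℓ := by
        rw [← hμ, hℓ]
        exact Nat.le_ceil _
      rw [Real.logb_le_iff_le_rpow (by norm_num) (by linarith), Real.rpow_natCast] at h6
      exact h6
    rw [one_div, inv_mul_eq_div, le_div_iff₀ (by linarith), one_mul]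
    exact h5) hkβ (by
    rw [hT]
    exact Nat.le_pow_clog (by norm_num) _)
  obtain ⟨E, hE⟩ : ∃ E : ℕ, E = (ℓ * t + 5 + β + 1 + (2 * (t * d) * (ℓ * t + 5 + β + β + 6 + T) + 2)) +
      (ℓ * t + 5 + β + 2 + 1) * 2 := ⟨_, rfl⟩
  rw [← hE] at hbound
  have hℓ0 : (0 : ℝ) ≤ ℓ := Nat.cast_nonneg _
  have htd : (t : ℝ) ≤ t * d := le_mul_of_one_le_right (by linarith) hdr
  have hEr : (E : ℝ) ≤ (t * d) * (t * (3 * ℓ + 8 + 2 * δ)) := by
    rw [hE]
    push_cast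
    exact E_bound ℓ t d β T δ hℓ0 ht9r hdr hδ0 htβ (by linarith) hβr1
  have hir : (i : ℝ) ≤ K + 1 := by
    rcases Nat.eq_zero_or_pos i with hi0 | hipos
    · rw [hi0]
      simp
      linarith
    · have h5 := hi (i - 1) (by omega)
      rw [mul_one] at h5
      have h6 : (2 : ℝ) ^ ((i - 1 : ℕ) : ℝ) ≤ k := by
        rw [Real.rpow_natCast]
        exact_mod_cast h5.le
      have h7 : ((i - 1 : ℕ) : ℝ) ≤ K := by
        rw [hK, Real.le_logb_iff_rpow_le (by norm_num) (by linarith)]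
        exact h6
      rw [Nat.cast_sub hipos] at h7
      push_cast at h7
      linarith
  have hfin : logb 2 (n : ℝ) ≤ i * E + (2 + K) := by
    have h5 : (n : ℝ) ≤ 2 ^ (i * E) * (4 * k) := by
      have : n ≤ 2 ^ (i * E) * (4 * k) := by simpa using hbound
      exact_mod_cast this
    have h6 := Real.logb_le_logb_of_le (b := 2) (by norm_num) (by linarith) h5
    rw [Real.logb_mul (by positivity) (by positivity), Real.logb_pow,
      Real.logb_self_eq_one (by norm_num), mul_one, Real.logb_mul (by norm_num) (by positivity),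
      ← hK] at h6
    have h7 : logb 2 (4 : ℝ) = 2 := by
      rw [show (4 : ℝ) = 2 ^ (2 : ℕ) by norm_num, Real.logb_pow]
      simp
    rw [h7] at h6
    push_cast at h6 ⊢
    exact h6
  -- the end
  have hS : 3 * (ℓ : ℝ) + 8 + 2 * δ ≤ 11 * (1 + (μ + δ)) := by linarith
  have hE2 : (E : ℝ) ≤ 1331 * (g ^ 2 * d * K ^ 2 * (1 + (μ + δ))) := by
    calc (E : ℝ) ≤ (t * d) * (t * (3 * ℓ + 8 + 2 * δ)) := hEr
      _ = (t * t) * (d * (3 * ℓ + 8 + 2 * δ)) := by ring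
      _ ≤ ((11 * g * K) * (11 * g * K)) * (d * (11 * (1 + (μ + δ)))) := by
          apply mul_le_mul (mul_le_mul htK htK (by linarith) (by positivity)) _ (by positivity)
            (by positivity)
          exact mul_le_mul_of_nonneg_left hS (by linarith)
      _ = 1331 * (g ^ 2 * d * K ^ 2 * (1 + (μ + δ))) := by ring
  obtain ⟨Q, hQ⟩ : ∃ Q : ℝ, Q = g ^ 2 * d * K ^ 2 * (1 + (μ + δ)) := ⟨_, rfl⟩
  have hQ1 : 1 ≤ Q := by
    rw [hQ]
    have h5 : (1 : ℝ) ≤ (g : ℝ) ^ 2 := one_le_pow₀ hgr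
    have h6 : (1 : ℝ) ≤ K ^ 2 := one_le_pow₀ hK1
    have h7 : (1 : ℝ) ≤ (g : ℝ) ^ 2 * d := one_le_mul_of_one_le_of_one_le h5 hdr
    have h8 : (1 : ℝ) ≤ (g : ℝ) ^ 2 * d * K ^ 2 := one_le_mul_of_one_le_of_one_le h7 h6
    exact one_le_mul_of_one_le_of_one_le h8 (by linarith)
  rw [← hQ] at hE2
  have hgoal : 8000 * (g : ℝ) ^ 2 * d * K ^ 3 * (1 + (μ + δ)) = 8000 * (K * Q) := by
    rw [hQ]
    ring
  rw [hgoal]
  have h1 : (i : ℝ) * E ≤ (K + 1) * (1331 * Q) :=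
    mul_le_mul hir hE2 (Nat.cast_nonneg _) (by linarith)
  have h2 : Q ≤ K * Q := le_mul_of_one_le_left (by linarith) hK1
  nlinarith

/-- **Relations with a gap** -/
theorem upper_gap {V Ω : Type} [Fintype V] [DecidableEq V] [Fintype Ω] [Nonempty Ω]
    (G : SimpleGraph V) (f : Ω → V → V → Bool) (d k g : ℕ) (m : ℝ) (hd : 1 ≤ d) (hk : 2 ≤ k)
    (hm : 1 ≤ m) (hg : 1 ≤ g) (hf : ∀ ω, VCdim (f ω) d)
    (hblueΩ : ∀ x y, x ≠ y → ¬ G.Adj x y →
      m * ((univ.filter (fun ω => f ω x y = true)).card : ℝ) ≤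
        (1 - 1 / (g : ℝ)) * (Fintype.card Ω : ℝ))
    (hcov : ∀ x y, G.Adj x y →
      (Fintype.card Ω : ℝ) ≤ m * ((univ.filter (fun ω => f ω x y = true)).card : ℝ) ∨
      (Fintype.card Ω : ℝ) ≤ m * ((univ.filter (fun ω => f ω y x = true)).card : ℝ))
    (hV : Nonempty V) (hred : G.CliqueFree k) (hblue : Gᶜ.CliqueFree k) :
    logb 2 (Fintype.card V) ≤ 8000 * (g : ℝ) ^ 2 * d * logb 2 k ^ 3 * (1 + logb 2 (m * d)) := by
  classical
  have hm0 : 0 < m := by linarith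
  have hgr : (1 : ℝ) ≤ g := by exact_mod_cast hg
  refine numeric_gap (Fintype.card V) d k g m hd hk hm Fintype.card_pos hg ?_
  intro β ℓ T t hgap hℓ hβ hT
  refine bound_nat G f d t (1 / m) (1 - 1 / (g : ℝ)) (by positivity) ?_
    (fun ω => growth_of_vc _ _ (hf ω))
    ?_ ?_ k β ℓ T 2 1 (by omega) hgap hℓ hβ hT le_rfl le_rfl (by omega) hred hblue
  · have : 1 / (g : ℝ) ≤ 1 := by
      rw [div_le_one (by linarith)]
      exact hgr
    linarith
  · intro x y hxy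
    rcases hcov x y hxy with h | h
    · left
      rw [one_div, inv_mul_le_iff₀ hm0]
      exact h
    · right
      rw [one_div, inv_mul_le_iff₀ hm0]
      exact h
  · intro x y hxy hadj
    have h := hblueΩ x y hxy hadj
    have e : (1 - 1 / (g : ℝ)) * (1 / m * (Fintype.card Ω : ℝ)) =
        ((1 - 1 / (g : ℝ)) * (Fintype.card Ω : ℝ)) / m := by ring
    rw [e, le_div_iff₀ hm0]
    linarith

end Pool.Agent.H700.RU
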