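import Pool.Agent.H700.RU.Clus

/-!
# The recursion
-/

set_option autoImplicit false

namespace Pool.Agent.H700.RU

open Finset
open Pool.Agent.H818R2.Ram (HasRed HasBlue hasBlue_succ erdos_szekeres)
open Pool.Agent.R533.VC (Growth growth_comp cluster pack dif)

variable {V : Type} [DecidableEq V]

/-- sets without red `K_h` and blue `K_b` have at most `M` elements -/
def Cond (G : SimpleGraph V) (b h M : ℕ) : Prop :=
  ∀ A : Finset V, ¬ HasRed G A h → ¬ HasBlue G A b → A.card ≤ M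

/-- large sets contain clusters -/
def StepH (G : SimpleGraph V) (b h κ1 κ2 : ℕ) : Prop :=
  ∀ A : Finset V, 4 * b ≤ A.card → A.Nonempty → ¬ HasBlue G A b →
    ∃ C ⊆ A, A.card ≤ 2 ^ κ1 * C.card ∧
      ∀ H ⊆ C, H.card = h → ∃ A' ⊆ A, Disjoint H A' ∧ (∀ u ∈ H, ∀ v ∈ A', G.Adj u v) ∧
        A.card ≤ 2 ^ κ2 * (A'.card + h)

theorem hasRed_union (G : SimpleGraph V) {A B W : Finset V} {a b : ℕ} (hA : G.IsNClique a A)
    (hB : G.IsNClique b B) (hd : Disjoint A B) (hadj : ∀ u ∈ A, ∀ v ∈ B, G.Adj u v)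
    (hAW : A ⊆ W) (hBW : B ⊆ W) : HasRed G W (a + b) := by
  rw [SimpleGraph.isNClique_iff] at hA hB
  refine ⟨A ∪ B, union_subset hAW hBW, ?_⟩
  rw [SimpleGraph.isNClique_iff]
  refine ⟨?_, by rw [card_union_of_disjoint hd, hA.2, hB.2]⟩
  intro x hx y hy hxy
  rw [mem_coe, mem_union] at hx hy
  rcases hx with hx | hx <;> rcases hy with hy | hy
  · exact hA.1 hx hy hxy
  · exact hadj x hx y hy
  · exact (hadj y hy x hx).symm
  · exact hB.1 hx hy hxy

theorem hasRed_zero (G : SimpleGraph V) (A : Finset V) : HasRed G A 0 :=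
  ⟨∅, empty_subset _, by rw [SimpleGraph.isNClique_iff]; simp⟩

/-- one level of the recursion -/
theorem level (G : SimpleGraph V) (b h κ1 κ2 M : ℕ) (hstep : StepH G b h κ1 κ2)
    (hM : Cond G b h M) (hbM : 4 * b ≤ M) (hhM : h ≤ M) :
    ∀ j : ℕ, Cond G b (j * h) (2 ^ (κ1 + (κ2 + 1) * j) * M) := by
  intro j
  induction j with
  | zero =>
    intro A h1 _
    rw [Nat.zero_mul] at h1
    exact absurd (hasRed_zero G A) h1
  | succ j ih =>
    intro A h1 h2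
    by_contra hcon
    push Not at hcon
    have hMle : M ≤ 2 ^ (κ1 + (κ2 + 1) * (j + 1)) * M := Nat.le_mul_of_pos_left _ (by positivity)
    have hAne : A.Nonempty := by
      rw [← card_pos]
      omega
    obtain ⟨C, hCA, hC, hH⟩ := hstep A (by omega) hAne h2
    have hCM : M < C.card := by
      by_contra hc
      push Not at hc
      have e1 : 2 ^ κ1 * C.card ≤ 2 ^ κ1 * M := Nat.mul_le_mul_left _ hc
      have e2 : 2 ^ κ1 * M ≤ 2 ^ (κ1 + (κ2 + 1) * (j + 1)) * M :=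
        Nat.mul_le_mul_right _ (Nat.pow_le_pow_right (by norm_num) (Nat.le_add_right _ _))
      omega
    have hCred : HasRed G C h := by
      by_contra hc
      have := hM C hc (fun hb => h2 (hb.mono hCA))
      omega
    obtain ⟨H, hHC, hHcl⟩ := hCred
    obtain ⟨A', hA'A, hdisj, hadj, hcard⟩ := hH H hHC (SimpleGraph.isNClique_iff _ |>.1 hHcl).2
    have hA'M : 2 ^ (κ1 + (κ2 + 1) * j) * M < A'.card := by
      by_contra hc
      push Not at hc
      have e0 : h ≤ 2 ^ (κ1 + (κ2 + 1) * j) * M :=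
        hhM.trans (Nat.le_mul_of_pos_left _ (by positivity))
      have e1 : 2 ^ κ2 * (A'.card + h) ≤ 2 ^ κ2 * (2 * (2 ^ (κ1 + (κ2 + 1) * j) * M)) :=
        Nat.mul_le_mul_left _ (by omega)
      have e2 : 2 ^ κ2 * (2 * (2 ^ (κ1 + (κ2 + 1) * j) * M)) =
          2 ^ (κ1 + (κ2 + 1) * (j + 1)) * M := by
        have : κ1 + (κ2 + 1) * (j + 1) = (κ1 + (κ2 + 1) * j) + κ2 + 1 := by ring
        rw [this, pow_succ, pow_add]
        ring
      omega
    have hA'red : HasRed G A' (j * h) := by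
      by_contra hc
      have := ih A' hc (fun hb => h2 (hb.mono hA'A))
      omega
    obtain ⟨S, hSA', hScl⟩ := hA'red
    apply h1
    have h3 := hasRed_union G (W := A) hHcl hScl (disjoint_of_subset_right hSA' hdisj)
      (fun u hu v hv => hadj u hu v (hSA' hv)) (hHC.trans hCA) (hSA'.trans hA'A)
    have : (j + 1) * h = h + j * h := by ring
    rw [this]
    exact h3

/-- all levels -/
theorem levels (G : SimpleGraph V) (b h0 r κ1 κ2 M0 : ℕ) (hM : Cond G b h0 M0) (hbM : 4 * b ≤ M0)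
    (hhM : h0 ≤ M0) : ∀ i : ℕ, (∀ i' < i, StepH G b (r ^ i' * h0) κ1 κ2) →
      Cond G b (r ^ i * h0) (2 ^ (i * (κ1 + (κ2 + 1) * r)) * M0) ∧
        r ^ i * h0 ≤ 2 ^ (i * (κ1 + (κ2 + 1) * r)) * M0 := by
  intro i
  induction i with
  | zero =>
    intro _
    simp only [pow_zero, one_mul, Nat.zero_mul]
    exact ⟨hM, hhM⟩
  | succ i ih =>
    intro hs
    obtain ⟨h1, h2⟩ := ih fun i' hi' => hs i' (by omega)
    have h3 := level G b (r ^ i * h0) κ1 κ2 (2 ^ (i * (κ1 + (κ2 + 1) * r)) * M0) (hs i (by omega))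
      h1 (hbM.trans (Nat.le_mul_of_pos_left _ (by positivity))) h2 r
    have e1 : 2 ^ ((i + 1) * (κ1 + (κ2 + 1) * r)) * M0 =
        2 ^ (κ1 + (κ2 + 1) * r) * (2 ^ (i * (κ1 + (κ2 + 1) * r)) * M0) := by
      rw [Nat.add_mul, Nat.one_mul, pow_add]
      ring
    have e2 : r ^ (i + 1) * h0 = r * (r ^ i * h0) := by
      rw [pow_succ]
      ring
    rw [e1, e2]
    refine ⟨h3, Nat.mul_le_mul ?_ h2⟩
    calc r ≤ 2 ^ r := Nat.lt_two_pow_self.le
      _ ≤ 2 ^ (κ1 + (κ2 + 1) * r) := Nat.pow_le_pow_right (by norm_num) (by nlinarith)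

/-- clusters from acceptance by functions of polynomial growth -/
theorem stepH_of {Ω : Type} [Fintype Ω] [Nonempty Ω] (G : SimpleGraph V) [DecidableRel G.Adj]
    (f : Ω → V → V → Bool) (D t : ℕ) (α δ : ℝ) (hα : 0 < α) (hδ : 0 ≤ δ)
    (hf : ∀ ω, Growth (f ω) D)
    (h1 : ∀ x y, G.Adj x y →
      α * (Fintype.card Ω : ℝ) ≤ ((univ.filter (fun ω => f ω x y = true)).card : ℝ) ∨
      α * (Fintype.card Ω : ℝ) ≤ ((univ.filter (fun ω => f ω y x = true)).card : ℝ))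
    (h0 : ∀ x y, x ≠ y → ¬ G.Adj x y →
      ((univ.filter (fun ω => f ω x y = true)).card : ℝ) ≤ δ * (α * (Fintype.card Ω : ℝ)))
    (b h β ℓ T : ℕ) (hb : 1 ≤ b) (hgap : 128 * b * h * δ ^ t ≤ 1) (hℓ : 1 ≤ α * 2 ^ ℓ)
    (hbβ : b ≤ 2 ^ β) (hh : 1 ≤ h) (hhβ : h ≤ 2 ^ β) (hT : 2 * (t * D) ≤ 2 ^ T) :
    StepH G b h (ℓ * t + 5 + β + 1 + (2 * (t * D) * (ℓ * t + 5 + β + β + 6 + T) + 2))
      (ℓ * t + 5 + β + 2) := by
  intro A hA hAne hblue
  obtain ⟨F, hF, hsum⟩ := pick G f D t α δ hα hδ hf h1 h0 b h hb hgap A hA hblue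
  have hb0 : (0 : ℝ) < b := by exact_mod_cast hb
  refine cluster_step G F (t * D) h hF A hAne (ℓ * t + 5 + β) β T (α ^ t / (32 * b))
    (by positivity) ?_ hh hhβ hT hsum
  rw [div_mul_eq_mul_div, le_div_iff₀ (by positivity), one_mul]
  have e1 : (1 : ℝ) ≤ α ^ t * 2 ^ (ℓ * t) := by
    rw [pow_mul, ← mul_pow]
    exact one_le_pow₀ hℓ
  have e2 : (b : ℝ) ≤ 2 ^ β := by exact_mod_cast hbβ
  have e3 : α ^ t * 2 ^ (ℓ * t + 5 + β) = (α ^ t * 2 ^ (ℓ * t)) * (32 * 2 ^ β) := by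
    rw [pow_add, pow_add]
    ring
  rw [e3]
  have e4 : (0 : ℝ) ≤ 32 * 2 ^ β := by positivity
  nlinarith

/-- the bound of Erdős and Szekeres as a start -/
theorem cond_start (G : SimpleGraph V) (b h0 : ℕ) (hb : 1 ≤ b) (hh0 : 1 ≤ h0) :
    Cond G b h0 ((h0 - 1 + (b - 1)).choose (h0 - 1)) := by
  classical
  intro A h1 h2
  by_contra hcon
  push Not at hcon
  rcases erdos_szekeres G _ (h0 - 1) (b - 1) rfl A hcon.le with h | h
  · rw [Nat.sub_add_cancel hh0] at h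
    exact h1 h
  · rw [Nat.sub_add_cancel hb] at h
    exact h2 h

/-- **The bound in integers** -/
theorem bound_nat {Ω : Type} [Fintype Ω] [Nonempty Ω] [Fintype V] (G : SimpleGraph V)
    [DecidableRel G.Adj]
    (f : Ω → V → V → Bool) (D t : ℕ) (α δ : ℝ) (hα : 0 < α) (hδ : 0 ≤ δ)
    (hf : ∀ ω, Growth (f ω) D)
    (h1 : ∀ x y, G.Adj x y →
      α * (Fintype.card Ω : ℝ) ≤ ((univ.filter (fun ω => f ω x y = true)).card : ℝ) ∨
      α * (Fintype.card Ω : ℝ) ≤ ((univ.filter (fun ω => f ω y x = true)).card : ℝ))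
    (h0 : ∀ x y, x ≠ y → ¬ G.Adj x y →
      ((univ.filter (fun ω => f ω x y = true)).card : ℝ) ≤ δ * (α * (Fintype.card Ω : ℝ)))
    (k β ℓ T r a : ℕ) (hk : 1 ≤ k) (hgap : 128 * k * k * δ ^ t ≤ 1) (hℓ : 1 ≤ α * 2 ^ ℓ)
    (hkβ : k ≤ 2 ^ β) (hT : 2 * (t * D) ≤ 2 ^ T) (hr : 2 ≤ r) (ha : 1 ≤ a) (hak : a ≤ k)
    (hred : G.CliqueFree k) (hblue : Gᶜ.CliqueFree k) :
    ∃ i : ℕ, (∀ i' < i, r ^ i' * a < k) ∧ Fintype.card V ≤
      2 ^ (i * ((ℓ * t + 5 + β + 1 + (2 * (t * D) * (ℓ * t + 5 + β + β + 6 + T) + 2)) +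
        (ℓ * t + 5 + β + 2 + 1) * r)) * (4 * k * (a - 1 + (k - 1)).choose (a - 1)) := by
  classical
  have hex : ∃ i, k ≤ r ^ i * a := ⟨k, by
    calc k ≤ r ^ k := (Nat.lt_pow_self (by omega)).le
      _ ≤ r ^ k * a := Nat.le_mul_of_pos_right _ ha⟩
  refine ⟨Nat.find hex, fun i' hi' => not_le.1 (Nat.find_min hex hi'), ?_⟩
  have hch : 1 ≤ (a - 1 + (k - 1)).choose (a - 1) := Nat.choose_pos (Nat.le_add_right _ _)
  have hstart : Cond G k a (4 * k * (a - 1 + (k - 1)).choose (a - 1)) := by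
    intro A h1 h2
    have := cond_start G k a hk ha A h1 h2
    nlinarith
  have h2 := levels G k a r (ℓ * t + 5 + β + 1 + (2 * (t * D) * (ℓ * t + 5 + β + β + 6 + T) + 2))
    (ℓ * t + 5 + β + 2) (4 * k * (a - 1 + (k - 1)).choose (a - 1)) hstart
    (Nat.le_mul_of_pos_right _ hch) (by nlinarith) (Nat.find hex) (fun i' hi' => by
      have h3 : r ^ i' * a < k := not_le.1 (Nat.find_min hex hi')
      have h4 : 1 ≤ r ^ i' * a := Nat.mul_pos (by positivity) ha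
      refine stepH_of G f D t α δ hα hδ hf h1 h0 k (r ^ i' * a) β ℓ T hk ?_ hℓ hkβ h4
        (h3.le.trans hkβ) hT
      refine le_trans ?_ hgap
      have h5 : ((r ^ i' * a : ℕ) : ℝ) ≤ k := by exact_mod_cast h3.le
      have h6 : (0 : ℝ) ≤ δ ^ t := by positivity
      have h7 : (0 : ℝ) ≤ 128 * k := by positivity
      exact mul_le_mul_of_nonneg_right (mul_le_mul_of_nonneg_left h5 h7) h6)
  have h3 := h2.1 univ (fun hR => hred _ (hR.le (Nat.find_spec hex)).choose_spec.2)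
    (fun hB => hblue _ hB.choose_spec.2)
  rwa [card_univ] at h3

end Pool.Agent.H700.RU
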