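import Pool.Graph.R_pool_sql_team_seeded_b0a926ef.R533.VC.Fin
import Pool.Graph.R_seed8.H818R2.Ram.Basic

/-!
# One step: a cluster of vertices all of whose small subsets have a large red common neighbourhood
-/

set_option autoImplicit false

namespace Pool.Agent.H700.RU

open Finset
open Pool.Agent.H818R2.Ram (HasRed HasBlue hasBlue_succ)
open Pool.Agent.R533.VC (Growth growth_comp cluster pack dif)

variable {V : Type} [DecidableEq V]

/-- greedy choice of a blue clique -/
theorem greedy (G : SimpleGraph V) [DecidableRel G.Adj] (D : ℕ) (hD : 1 ≤ D) :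
    ∀ (b : ℕ) (L : Finset V), (∀ u ∈ L, (L.filter (fun v => G.Adj u v)).card < D) →
      b * D ≤ L.card → HasBlue G L b := by
  intro b
  induction b with
  | zero =>
    intro L _ _
    refine ⟨∅, empty_subset _, ?_⟩
    rw [SimpleGraph.isNClique_iff]
    simp
  | succ b ih =>
    intro L hL hc
    have hpos : 0 < L.card := by nlinarith
    obtain ⟨u, hu⟩ := card_pos.1 hpos
    let L' := L.filter (fun v => v ≠ u ∧ ¬ G.Adj u v)
    have h1 : L.card ≤ L'.card + D := by
      have h2 : L ⊆ L' ∪ insert u (L.filter (fun v => G.Adj u v)) := by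
        intro v hv
        by_cases hvu : v = u
        · subst hvu
          simp
        · by_cases hadj : G.Adj u v
          · simp [hv, hadj]
          · simp [L', hv, hadj, hvu]
      have h3 := (card_le_card h2).trans (card_union_le _ _)
      have h4 := card_insert_le u (L.filter (fun v => G.Adj u v))
      have h5 := hL u hu
      omega
    have h2 : HasBlue G L' b := by
      refine ih L' (fun v hv => ?_) ?_
      · refine lt_of_le_of_lt (card_le_card ?_) (hL v (mem_of_mem_filter _ hv))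
        exact filter_subset_filter _ (filter_subset _ _)
      · rw [Nat.add_mul, Nat.one_mul] at hc
        omega
    refine hasBlue_succ hu (filter_subset _ _) (fun v hv => ?_) h2
    rw [SimpleGraph.compl_adj]
    obtain ⟨_, h3, h4⟩ := mem_filter.1 hv
    exact ⟨h3.symm, h4⟩

/-- in a set without blue `K_b` many vertices have large red degree -/
theorem many_red (G : SimpleGraph V) [DecidableRel G.Adj] (b : ℕ) (hb : 1 ≤ b) (A : Finset V)
    (hA : 4 * b ≤ A.card) (hblue : ¬ HasBlue G A b) :
    A.card ≤ 4 * (A.filter (fun u => A.card ≤ 2 * b *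
      (A.filter (fun v => G.Adj u v)).card)).card := by
  let L := A.filter (fun u => ¬ (A.card ≤ 2 * b * (A.filter (fun v => G.Adj u v)).card))
  have hsplit := card_filter_add_card_filter_not (s := A)
    (fun u => A.card ≤ 2 * b * (A.filter (fun v => G.Adj u v)).card)
  have hL : L.card < b * (A.card / (2 * b) + 1) := by
    by_contra hcon
    push Not at hcon
    apply hblue
    have h1 := greedy G (A.card / (2 * b) + 1) (Nat.le_add_left 1 _) b L (fun u hu => ?_) hcon
    · exact h1.mono (filter_subset _ _)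
    · obtain ⟨hu1, hu2⟩ := mem_filter.1 hu
      push Not at hu2
      have h2 : (L.filter (fun v => G.Adj u v)).card ≤ (A.filter (fun v => G.Adj u v)).card :=
        card_le_card (filter_subset_filter _ (filter_subset _ _))
      have h3 : (A.filter (fun v => G.Adj u v)).card ≤ A.card / (2 * b) := by
        rw [Nat.le_div_iff_mul_le (by omega), mul_comm]
        exact hu2.le
      omega
  have h4 : 2 * (b * (A.card / (2 * b))) ≤ A.card := by
    have := Nat.mul_div_le A.card (2 * b)
    calc 2 * (b * (A.card / (2 * b))) = 2 * b * (A.card / (2 * b)) := by ring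
      _ ≤ A.card := this
  have h5 : L.card < b * (A.card / (2 * b)) + b := by
    rw [mul_add, mul_one] at hL
    exact hL
  have h6 : L.card = (A.filter (fun u => ¬ (A.card ≤ 2 * b * (A.filter (fun v => G.Adj u v)).card))).card := rfl
  omega

/-- the number of red ordered pairs -/
theorem red_pairs (G : SimpleGraph V) [DecidableRel G.Adj] (b : ℕ) (hb : 1 ≤ b) (A : Finset V)
    (hA : 4 * b ≤ A.card) (hblue : ¬ HasBlue G A b) :
    A.card * A.card ≤ 8 * b * ((A ×ˢ A).filter (fun p => G.Adj p.1 p.2)).card := by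
  have h1 := many_red G b hb A hA hblue
  let U := A.filter (fun u => A.card ≤ 2 * b * (A.filter (fun v => G.Adj u v)).card)
  have h2 : ((A ×ˢ A).filter (fun p => G.Adj p.1 p.2)).card =
      ∑ u ∈ A, (A.filter (fun v => G.Adj u v)).card := by
    rw [card_filter, sum_product]
    refine sum_congr rfl fun u _ => ?_
    rw [card_filter]
  have h3 : ∑ u ∈ U, A.card ≤ ∑ u ∈ U, 2 * b * (A.filter (fun v => G.Adj u v)).card :=
    sum_le_sum fun u hu => (mem_filter.1 hu).2
  have h4 : ∑ u ∈ U, 2 * b * (A.filter (fun v => G.Adj u v)).card ≤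
      ∑ u ∈ A, 2 * b * (A.filter (fun v => G.Adj u v)).card :=
    sum_le_sum_of_subset (filter_subset _ _)
  rw [sum_const, smul_eq_mul] at h3
  rw [h2]
  rw [← mul_sum (s := A)] at h4
  have h5 : A.card * A.card ≤ 4 * U.card * A.card := Nat.mul_le_mul_right _ h1
  calc A.card * A.card ≤ 4 * (U.card * A.card) := by rw [← mul_assoc]; exact h5
    _ ≤ 4 * (2 * b * ∑ u ∈ A, (A.filter (fun v => G.Adj u v)).card) :=
        Nat.mul_le_mul_left _ (h3.trans h4)
    _ = 8 * b * ∑ u ∈ A, (A.filter (fun v => G.Adj u v)).card := by ring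

/-- the red neighbours `x` of `u` in `A` with `F x u` -/
def w1 (G : SimpleGraph V) [DecidableRel G.Adj] (F : V → V → Bool) (A : Finset V) (u : V) : ℕ :=
  (A.filter (fun x => G.Adj x u ∧ F x u = true)).card

/-- the blue neighbours `x` of `u` in `A` with `F x u` -/
def w0 (G : SimpleGraph V) [DecidableRel G.Adj] (F : V → V → Bool) (A : Finset V) (u : V) : ℕ :=
  (A.filter (fun x => (x ≠ u ∧ ¬ G.Adj x u) ∧ F x u = true)).card

/-- **Choice of a function** -/
theorem pick {Ω : Type} [Fintype Ω] [Nonempty Ω] (G : SimpleGraph V) [DecidableRel G.Adj]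
    (f : Ω → V → V → Bool) (D t : ℕ) (α δ : ℝ) (hα : 0 < α) (hδ : 0 ≤ δ)
    (hf : ∀ ω, Growth (f ω) D)
    (h1 : ∀ x y, G.Adj x y →
      α * (Fintype.card Ω : ℝ) ≤ ((univ.filter (fun ω => f ω x y = true)).card : ℝ) ∨
      α * (Fintype.card Ω : ℝ) ≤ ((univ.filter (fun ω => f ω y x = true)).card : ℝ))
    (h0 : ∀ x y, x ≠ y → ¬ G.Adj x y →
      ((univ.filter (fun ω => f ω x y = true)).card : ℝ) ≤ δ * (α * (Fintype.card Ω : ℝ)))
    (b h : ℕ) (hb : 1 ≤ b) (hgap : 128 * b * h * δ ^ t ≤ 1)
    (A : Finset V) (hA : 4 * b ≤ A.card) (hblue : ¬ HasBlue G A b) :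
    ∃ F : V → V → Bool, Growth F (t * D) ∧
      α ^ t / (32 * b) * ((A.card : ℝ) * A.card) ≤
        ∑ u ∈ A, ((w1 G F A u : ℝ) - 4 * h * (w0 G F A u : ℝ)) := by
  classical
  obtain ⟨N, hNe⟩ : ∃ N : ℝ, N = (Fintype.card Ω : ℝ) := ⟨_, rfl⟩
  have hN : (0 : ℝ) < N := by
    rw [hNe]
    exact_mod_cast Fintype.card_pos
  rw [← hNe] at h1 h0
  have hb1 : (1 : ℝ) ≤ b := by exact_mod_cast hb
  let H : (Fin t → Ω) → V → V → Bool := fun σ x y => decide (∀ i, f (σ i) x y = true)
  have hacc : ∀ x y, (univ.filter (fun σ : Fin t → Ω => H σ x y = true)).card =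
      (univ.filter (fun ω => f ω x y = true)).card ^ t := by
    intro x y
    have e : (univ.filter (fun σ : Fin t → Ω => H σ x y = true)) =
        Fintype.piFinset (fun _ : Fin t => univ.filter (fun ω => f ω x y = true)) := by
      ext σ
      simp [H, Fintype.mem_piFinset]
    rw [e, Fintype.card_piFinset_const]
  have hswap : ∀ S : Finset (V × V), ∑ σ : Fin t → Ω, ((S.filter (fun p => H σ p.1 p.2 = true)).card : ℝ) =
      ∑ p ∈ S, ((univ.filter (fun ω => f ω p.1 p.2 = true)).card : ℝ) ^ t := by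
    intro S
    have e1 : ∀ p ∈ S, ((univ.filter (fun ω => f ω p.1 p.2 = true)).card : ℝ) ^ t =
        ∑ σ : Fin t → Ω, (if H σ p.1 p.2 = true then (1 : ℝ) else 0) := by
      intro p _
      rw [← Nat.cast_pow, ← hacc, Finset.card_filter]
      push_cast
      rfl
    rw [sum_congr rfl e1, sum_comm]
    refine sum_congr rfl fun σ _ => ?_
    rw [Finset.card_filter]
    push_cast
    rfl
  let S1 : Finset (V × V) := (A ×ˢ A).filter (fun p => G.Adj p.1 p.2)
  let S0 : Finset (V × V) := (A ×ˢ A).filter (fun p => p.1 ≠ p.2 ∧ ¬ G.Adj p.1 p.2)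
  have hαN : 0 < α * N := mul_pos hα hN
  -- red
  have hred := red_pairs G b hb A hA hblue
  have hred' : (A.card : ℝ) * A.card ≤ 8 * b * (S1.card : ℝ) := by exact_mod_cast hred
  have hsum1 : (S1.card : ℝ) * (α * N) ^ t ≤
      2 * ∑ p ∈ S1, ((univ.filter (fun ω => f ω p.1 p.2 = true)).card : ℝ) ^ t := by
    have hsw : ∑ p ∈ S1, ((univ.filter (fun ω => f ω p.2 p.1 = true)).card : ℝ) ^ t =
        ∑ p ∈ S1, ((univ.filter (fun ω => f ω p.1 p.2 = true)).card : ℝ) ^ t := by
      refine sum_nbij' (fun p => (p.2, p.1)) (fun p => (p.2, p.1)) ?_ ?_ ?_ ?_ ?_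
      · intro p hp
        simp only [S1, mem_filter, mem_product] at hp ⊢
        exact ⟨⟨hp.1.2, hp.1.1⟩, hp.2.symm⟩
      · intro p hp
        simp only [S1, mem_filter, mem_product] at hp ⊢
        exact ⟨⟨hp.1.2, hp.1.1⟩, hp.2.symm⟩
      · intro p _
        rfl
      · intro p _
        rfl
      · intro p _
        rfl
    have e1 : 2 * ∑ p ∈ S1, ((univ.filter (fun ω => f ω p.1 p.2 = true)).card : ℝ) ^ t =
        ∑ p ∈ S1, (((univ.filter (fun ω => f ω p.1 p.2 = true)).card : ℝ) ^ t +
          ((univ.filter (fun ω => f ω p.2 p.1 = true)).card : ℝ) ^ t) := by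
      rw [sum_add_distrib, hsw]
      ring
    rw [e1, ← nsmul_eq_mul, ← sum_const]
    refine sum_le_sum fun p hp => ?_
    have hadj := (mem_filter.1 hp).2
    have p1 : (0 : ℝ) ≤ ((univ.filter (fun ω => f ω p.1 p.2 = true)).card : ℝ) ^ t := by positivity
    have p2 : (0 : ℝ) ≤ ((univ.filter (fun ω => f ω p.2 p.1 = true)).card : ℝ) ^ t := by positivity
    rcases h1 p.1 p.2 hadj with h | h
    · have := pow_le_pow_left₀ hαN.le h t
      linarith
    · have := pow_le_pow_left₀ hαN.le h t
      linarith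
  -- blue
  have hsum0 : ∑ p ∈ S0, ((univ.filter (fun ω => f ω p.1 p.2 = true)).card : ℝ) ^ t ≤
      ((A.card : ℝ) * A.card) * (δ ^ t * (α * N) ^ t) := by
    have e1 : ∑ p ∈ S0, ((univ.filter (fun ω => f ω p.1 p.2 = true)).card : ℝ) ^ t ≤
        ∑ _p ∈ S0, (δ ^ t * (α * N) ^ t) := by
      refine sum_le_sum fun p hp => ?_
      obtain ⟨_, hp2⟩ := mem_filter.1 hp
      rw [← mul_pow]
      exact pow_le_pow_left₀ (Nat.cast_nonneg _) (h0 p.1 p.2 hp2.1 hp2.2) t
    refine e1.trans ?_
    rw [sum_const, nsmul_eq_mul]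
    refine mul_le_mul_of_nonneg_right ?_ (by positivity)
    have : S0.card ≤ A.card * A.card := by
      rw [← card_product]
      exact card_filter_le _ _
    exact_mod_cast this
  -- choose
  obtain ⟨σ, hσ⟩ : ∃ σ : Fin t → Ω, α ^ t / (32 * b) * ((A.card : ℝ) * A.card) ≤
      ((S1.filter (fun p => H σ p.1 p.2 = true)).card : ℝ) -
        4 * h * ((S0.filter (fun p => H σ p.1 p.2 = true)).card : ℝ) := by
    have hsum : ∑ _σ : Fin t → Ω, α ^ t / (32 * b) * ((A.card : ℝ) * A.card) ≤
        ∑ σ : Fin t → Ω, (((S1.filter (fun p => H σ p.1 p.2 = true)).card : ℝ) -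
        4 * h * ((S0.filter (fun p => H σ p.1 p.2 = true)).card : ℝ)) := by
      rw [sum_const, nsmul_eq_mul, card_univ, Fintype.card_fun, Fintype.card_fin,
        sum_sub_distrib, ← mul_sum, hswap, hswap]
      push_cast
      rw [← hNe]
      obtain ⟨X1, hX1⟩ : ∃ X1 : ℝ, X1 = ∑ p ∈ S1, ((univ.filter (fun ω => f ω p.1 p.2 = true)).card : ℝ) ^ t := ⟨_, rfl⟩
      obtain ⟨X0, hX0⟩ : ∃ X0 : ℝ, X0 = ∑ p ∈ S0, ((univ.filter (fun ω => f ω p.1 p.2 = true)).card : ℝ) ^ t := ⟨_, rfl⟩
      rw [← hX1, ← hX0]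
      rw [← hX1] at hsum1
      rw [← hX0] at hsum0
      obtain ⟨P, hP⟩ : ∃ P : ℝ, P = (α * N) ^ t := ⟨_, rfl⟩
      rw [← hP] at hsum1 hsum0
      have hPpos : 0 < P := by
        rw [hP]
        positivity
      have eN : N ^ t * (α ^ t / (32 * b) * ((A.card : ℝ) * A.card)) =
          ((A.card : ℝ) * A.card) * P / (32 * b) := by
        rw [hP, mul_pow]
        ring
      rw [eN]
      have hb0 : (0 : ℝ) < b := by linarith
      rw [div_le_iff₀ (by positivity)]
      have q1 : ((A.card : ℝ) * A.card) * P ≤ 16 * b * X1 := by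
        calc ((A.card : ℝ) * A.card) * P ≤ (8 * b * (S1.card : ℝ)) * P :=
              mul_le_mul_of_nonneg_right hred' hPpos.le
          _ = 8 * b * ((S1.card : ℝ) * P) := by ring
          _ ≤ 8 * b * (2 * X1) := mul_le_mul_of_nonneg_left hsum1 (by positivity)
          _ = 16 * b * X1 := by ring
      have q0 : 128 * b * h * X0 ≤ ((A.card : ℝ) * A.card) * P := by
        calc 128 * b * h * X0 ≤ 128 * b * h * (((A.card : ℝ) * A.card) * (δ ^ t * P)) :=
              mul_le_mul_of_nonneg_left hsum0 (by positivity)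
          _ = (128 * b * h * δ ^ t) * (((A.card : ℝ) * A.card) * P) := by ring
          _ ≤ 1 * (((A.card : ℝ) * A.card) * P) :=
              mul_le_mul_of_nonneg_right hgap (by positivity)
          _ = ((A.card : ℝ) * A.card) * P := one_mul _
      nlinarith
    obtain ⟨σ, _, hσ⟩ := exists_le_of_sum_le univ_nonempty hsum
    exact ⟨σ, hσ⟩
  refine ⟨H σ, ?_, ?_⟩
  · have := growth_comp t (fun i => f (σ i)) (fun _ => D) (fun i => hf (σ i))
      (fun _ c => decide (∀ i, c i = true))
    simpa [H] using this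
  · rw [sum_sub_distrib, ← mul_sum]
    have e1 : ((S1.filter (fun p => H σ p.1 p.2 = true)).card : ℝ) =
        ∑ u ∈ A, (w1 G (H σ) A u : ℝ) := by
      rw [← Nat.cast_sum]
      congr 1
      simp only [S1, filter_filter]
      rw [card_filter, sum_product_right]
      refine sum_congr rfl fun u _ => ?_
      unfold w1
      rw [card_filter]
    have e0 : ((S0.filter (fun p => H σ p.1 p.2 = true)).card : ℝ) =
        ∑ u ∈ A, (w0 G (H σ) A u : ℝ) := by
      rw [← Nat.cast_sum]
      congr 1
      simp only [S0, filter_filter]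
      rw [card_filter, sum_product_right]
      refine sum_congr rfl fun u _ => ?_
      unfold w0
      rw [card_filter]
    rw [← e1, ← e0]
    exact hσ

end Pool.Agent.H700.RU
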