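import Pool.Agent.H700.RU.Rec

/-!
# The upper bound for unions of relations of small VC dimension
-/

set_option autoImplicit false

namespace Pool.Agent.H700.RU

open Finset Real
open Pool.Agent.H818R2.Ram (HasRed HasBlue)
open Pool.Agent.R533.VC (Growth VCdim growth_of_vc)

theorem exp_two_le : Real.exp 2 ≤ 8 := by
  have h1 : Real.exp 2 = Real.exp 1 ^ 2 := by
    rw [← Real.exp_nat_mul]
    norm_num
  rw [h1]
  have h2 := Real.exp_one_lt_d9
  have h3 : 0 < Real.exp 1 := Real.exp_pos 1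
  nlinarith

theorem choose_le_real (a k : ℕ) (ha : 1 ≤ a) (hak : a ≤ k) :
    ((a - 1 + (k - 1)).choose (a - 1) : ℝ) ≤ (8 * (k : ℝ) / a) ^ a := by
  have ha0 : (0 : ℝ) < a := by exact_mod_cast ha
  have hk0 : (0 : ℝ) < k := by
    have : 0 < k := by omega
    exact_mod_cast this
  have hakr : (a : ℝ) ≤ k := by exact_mod_cast hak
  obtain ⟨x, hx⟩ : ∃ x : ℝ, x = a / k := ⟨_, rfl⟩
  have hx0 : 0 < x := by
    rw [hx]
    positivity
  have hx1 : x ≤ 1 := by
    rw [hx, div_le_one hk0]
    exact hakr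
  obtain ⟨n, hn⟩ : ∃ n : ℕ, n = a - 1 + (k - 1) := ⟨_, rfl⟩
  rw [← hn]
  have h1 : x ^ (a - 1) * (n.choose (a - 1) : ℝ) ≤ (x + 1) ^ n := by
    rw [add_pow]
    have h2 : x ^ (a - 1) * 1 ^ (n - (a - 1)) * (n.choose (a - 1) : ℝ) ≤
        ∑ m ∈ range (n + 1), x ^ m * 1 ^ (n - m) * (n.choose m : ℝ) := by
      refine single_le_sum (f := fun m => x ^ m * 1 ^ (n - m) * (n.choose m : ℝ))
        (fun i _ => by positivity) ?_
      rw [mem_range]
      omega
    simpa using h2
  have h3 : (x + 1) ^ n ≤ Real.exp (2 * a) := by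
    calc (x + 1) ^ n ≤ (Real.exp x) ^ n :=
          pow_le_pow_left₀ (by positivity) (Real.add_one_le_exp x) n
      _ = Real.exp (n * x) := by rw [← Real.exp_nat_mul]
      _ ≤ Real.exp (2 * a) := by
          apply Real.exp_le_exp.2
          have h4 : (n : ℝ) ≤ 2 * k := by
            have : n ≤ 2 * k := by omega
            exact_mod_cast this
          calc (n : ℝ) * x ≤ 2 * k * x := mul_le_mul_of_nonneg_right h4 hx0.le
            _ = 2 * a := by
              rw [hx]
              field_simp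
  have h5 : Real.exp (2 * a) ≤ 8 ^ a := by
    have : Real.exp (2 * a) = (Real.exp 2) ^ a := by
      rw [← Real.exp_nat_mul]
      ring_nf
    rw [this]
    exact pow_le_pow_left₀ (Real.exp_pos 2).le exp_two_le a
  have h6 : x ^ a * (n.choose (a - 1) : ℝ) ≤ 8 ^ a := by
    have h7 : x ^ a ≤ x ^ (a - 1) := pow_le_pow_of_le_one hx0.le hx1 (by omega)
    calc x ^ a * (n.choose (a - 1) : ℝ) ≤ x ^ (a - 1) * (n.choose (a - 1) : ℝ) :=
          mul_le_mul_of_nonneg_right h7 (Nat.cast_nonneg _)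
      _ ≤ 8 ^ a := h1.trans (h3.trans h5)
  have h8 : (8 * (k : ℝ) / a) ^ a * x ^ a = 8 ^ a := by
    rw [← mul_pow, hx]
    congr 1
    field_simp
  have h9 : 0 < x ^ a := by positivity
  have h10 : (n.choose (a - 1) : ℝ) * x ^ a ≤ (8 * (k : ℝ) / a) ^ a * x ^ a := by
    rw [h8]
    linarith
  exact le_of_mul_le_mul_right h10 h9

theorem logb_two_le_self {x : ℝ} (hx : 1 ≤ x) : logb 2 (x + 1) ≤ x := by
  -- `x + 1 ≤ 2 ^ x` for `x ≥ 1`
  rw [Real.logb_le_iff_le_rpow (by norm_num) (by linarith)]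
  have h1 : 1 + (x - 1) * Real.log 2 ≤ 2 ^ (x - 1) := by
    have := Real.add_one_le_exp ((x - 1) * Real.log 2)
    have h2 : (2 : ℝ) ^ (x - 1) = Real.exp ((x - 1) * Real.log 2) := by
      rw [Real.rpow_def_of_pos (by norm_num), mul_comm]
    rw [h2]
    linarith
  have h3 : (2 : ℝ) ^ x = 2 * 2 ^ (x - 1) := by
    rw [Real.rpow_sub (by norm_num), Real.rpow_one]
    ring
  have h4 : 1 / 2 < Real.log 2 := by
    have := Real.log_two_gt_d9
    linarith
  rw [h3]
  nlinarith

theorem clog_le' {n : ℕ} (hn : 1 ≤ n) : (Nat.clog 2 n : ℝ) ≤ logb 2 n + 1 := by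
  rcases Nat.lt_or_ge 1 n with h | h
  · have h1 := Nat.pow_pred_clog_lt_self (b := 2) (by norm_num) h
    have hpos : 0 < Nat.clog 2 n := Nat.clog_pos (by norm_num) h
    have h2 : ((2 : ℝ) ^ ((Nat.clog 2 n).pred : ℝ)) ≤ n := by
      rw [Real.rpow_natCast]
      exact_mod_cast h1.le
    have h3 : ((Nat.clog 2 n).pred : ℝ) ≤ logb 2 n := by
      rw [Real.le_logb_iff_rpow_le (by norm_num) (by positivity)]
      exact h2
    have h4 : ((Nat.clog 2 n).pred : ℝ) = (Nat.clog 2 n : ℝ) - 1 := by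
      rw [Nat.pred_eq_sub_one, Nat.cast_sub (by omega)]
      simp
    rw [h4] at h3
    linarith
  · have : n = 1 := by omega
    subst this
    simp

/-- the numerical part of the upper bound -/
theorem numeric (n d k : ℕ) (m : ℝ) (hd : 1 ≤ d) (hk : 2 ≤ k) (hm : 1 ≤ m) (hn : 1 ≤ n)
    (h4 : n ≤ 4 ^ k)
    (hb : ∀ β ℓ T r a : ℕ, 1 ≤ (1 / m) * 2 ^ ℓ → k ≤ 2 ^ β → 2 * (1 * d) ≤ 2 ^ T → 2 ≤ r →
      1 ≤ a → a ≤ k → ∃ i : ℕ, (∀ i' < i, r ^ i' * a < k) ∧ n ≤
      2 ^ (i * ((ℓ * 1 + 5 + β + 1 + (2 * (1 * d) * (ℓ * 1 + 5 + β + β + 6 + T) + 2)) +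
        (ℓ * 1 + 5 + β + 2 + 1) * r)) * (4 * k * (a - 1 + (k - 1)).choose (a - 1))) :
    logb 2 n ≤ 153 * (d * logb 2 (m * k)) *
      (1 + logb 2 (2 + k / (d * logb 2 (m * k))) / logb 2 (d + 1)) := by
  obtain ⟨lam, hlam⟩ : ∃ lam : ℝ, lam = logb 2 (m * k) := ⟨_, rfl⟩
  rw [← hlam]
  obtain ⟨D, hD⟩ : ∃ D : ℝ, D = d * lam := ⟨_, rfl⟩
  rw [← hD]
  have hdr : (1 : ℝ) ≤ d := by exact_mod_cast hd
  have hkr : (2 : ℝ) ≤ k := by exact_mod_cast hk
  have hnr : (1 : ℝ) ≤ n := by exact_mod_cast hn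
  have hlm : 0 ≤ logb 2 m := Real.logb_nonneg (by norm_num) hm
  have hlk : 1 ≤ logb 2 (k : ℝ) := by
    rw [Real.le_logb_iff_rpow_le (by norm_num) (by linarith)]
    simpa using hkr
  have hlam' : lam = logb 2 m + logb 2 (k : ℝ) := by
    rw [hlam, Real.logb_mul (by linarith) (by linarith)]
  have hlam1 : 1 ≤ lam := by linarith
  have hDlam : lam ≤ D := by
    rw [hD]
    exact le_mul_of_one_le_left (by linarith) hdr
  have hD1 : 1 ≤ D := hlam1.trans hDlam
  obtain ⟨L, hL⟩ : ∃ L : ℝ, L = logb 2 (d + 1 : ℝ) := ⟨_, rfl⟩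
  rw [← hL]
  have hL1 : 1 ≤ L := by
    rw [hL, Real.le_logb_iff_rpow_le (by norm_num) (by linarith)]
    simp
    linarith
  have hLd : L ≤ d := by
    rw [hL]
    exact logb_two_le_self hdr
  obtain ⟨R, hR⟩ : ∃ R : ℝ, R = logb 2 (2 + k / D) / L := ⟨_, rfl⟩
  rw [← hR]
  have hlR : 1 ≤ logb 2 (2 + (k : ℝ) / D) := by
    rw [Real.le_logb_iff_rpow_le (by norm_num) (by positivity)]
    have : 0 ≤ (k : ℝ) / D := by positivity
    simp
    linarith
  have hR0 : 0 ≤ R := by
    rw [hR]
    positivity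
  rcases le_or_gt (k : ℝ) D with hkD | hkD
  · -- trivial case
    have h5 : logb 2 (n : ℝ) ≤ 2 * k := by
      rw [Real.logb_le_iff_le_rpow (by norm_num) (by linarith)]
      have h6 : (n : ℝ) ≤ 4 ^ k := by exact_mod_cast h4
      have h7 : (2 : ℝ) ^ (2 * (k : ℝ)) = 4 ^ k := by
        rw [Real.rpow_mul (by norm_num), Real.rpow_natCast]
        norm_num
      rw [h7]
      exact h6
    nlinarith
  · -- main case
    obtain ⟨x, hx⟩ : ∃ x : ℝ, x = D / L := ⟨_, rfl⟩
    have hx1 : 1 ≤ x := by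
      rw [hx, le_div_iff₀ (by linarith), one_mul]
      calc L ≤ d := hLd
        _ ≤ D := by
          rw [hD]
          exact le_mul_of_one_le_right (by linarith) hlam1
    have hxD : x ≤ D := by
      rw [hx]
      exact div_le_self (by linarith) hL1
    obtain ⟨a, ha⟩ : ∃ a : ℕ, a = ⌈x⌉₊ := ⟨_, rfl⟩
    have hax : x ≤ a := by
      rw [ha]
      exact Nat.le_ceil x
    have hax2 : (a : ℝ) ≤ 2 * x := by
      have := Nat.ceil_lt_add_one (by linarith : 0 ≤ x)
      rw [← ha] at this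
      linarith
    have ha1 : 1 ≤ a := by
      have : (0 : ℝ) < a := by linarith
      exact_mod_cast this
    have hak : a ≤ k := by
      rw [ha]
      exact Nat.ceil_le.2 (by linarith)
    have hdk : (d : ℝ) ≤ k := by
      have : (d : ℝ) ≤ D := by
        rw [hD]
        exact le_mul_of_one_le_right (by linarith) hlam1
      linarith
    obtain ⟨β, hβ⟩ : ∃ β : ℕ, β = Nat.clog 2 k := ⟨_, rfl⟩
    obtain ⟨ℓ, hℓ⟩ : ∃ ℓ : ℕ, ℓ = ⌈logb 2 m⌉₊ := ⟨_, rfl⟩
    obtain ⟨T, hT⟩ : ∃ T : ℕ, T = Nat.clog 2 (2 * d) := ⟨_, rfl⟩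
    have hβr : (β : ℝ) ≤ logb 2 (k : ℝ) + 1 := by
      rw [hβ]
      exact clog_le' (by omega)
    have hℓr : (ℓ : ℝ) ≤ logb 2 m + 1 := by
      rw [hℓ]
      exact (Nat.ceil_lt_add_one hlm).le
    have hTr : (T : ℝ) ≤ logb 2 (k : ℝ) + 2 := by
      have h5 : (T : ℝ) ≤ logb 2 ((2 * d : ℕ) : ℝ) + 1 := by
        rw [hT]
        exact clog_le' (by omega)
      have h6 : logb 2 ((2 * d : ℕ) : ℝ) ≤ logb 2 (k : ℝ) + 1 := by
        have h7 : ((2 * d : ℕ) : ℝ) ≤ (k : ℝ) * 2 := by
          push_cast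
          linarith
        calc logb 2 ((2 * d : ℕ) : ℝ) ≤ logb 2 ((k : ℝ) * 2) := by
              apply Real.logb_le_logb_of_le (by norm_num) _ h7
              have : 0 < 2 * d := by omega
              exact_mod_cast this
          _ = logb 2 (k : ℝ) + 1 := by
              rw [Real.logb_mul (by linarith) (by norm_num), Real.logb_self_eq_one (by norm_num)]
      linarith
    obtain ⟨i, hi, hbound⟩ := hb β ℓ T (d + 1) a (by
      have h5 : m ≤ 2 ^ ℓ := by
        have h6 : logb 2 m ≤ ℓ := by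
          rw [hℓ]
          exact Nat.le_ceil _
        rw [Real.logb_le_iff_le_rpow (by norm_num) (by linarith), Real.rpow_natCast] at h6
        exact h6
      rw [one_div, inv_mul_eq_div, le_div_iff₀ (by linarith), one_mul]
      exact h5) (by
      rw [hβ]
      exact Nat.le_pow_clog (by norm_num) _) (by
      rw [hT, one_mul]
      exact Nat.le_pow_clog (by norm_num) _) (by omega) ha1 hak
    -- the exponent of one level
    obtain ⟨E, hE⟩ : ∃ E : ℕ, E = (ℓ * 1 + 5 + β + 1 + (2 * (1 * d) * (ℓ * 1 + 5 + β + β + 6 + T) + 2)) +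
        (ℓ * 1 + 5 + β + 2 + 1) * (d + 1) := ⟨_, rfl⟩
    rw [← hE] at hbound
    have hEr : (E : ℝ) ≤ 71 * D := by
      rw [hE]
      push_cast
      have e1 : (ℓ : ℝ) + β ≤ lam + 2 := by
        rw [hlam']
        linarith
      have e2 : (β : ℝ) ≤ 2 * lam := by
        have : logb 2 (k : ℝ) ≤ lam := by linarith
        linarith
      have e3 : (T : ℝ) ≤ 3 * lam := by
        have : logb 2 (k : ℝ) ≤ lam := by linarith
        linarith
      have e4 : (ℓ : ℝ) * 1 + 5 + β + 1 + 2 ≤ 11 * lam := by linarith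
      have e5 : (ℓ : ℝ) * 1 + 5 + β + β + 6 + T ≤ 19 * lam := by linarith
      have e6 : (ℓ : ℝ) * 1 + 5 + β + 2 + 1 ≤ 11 * lam := by linarith
      have e7 : 2 * (1 * (d : ℝ)) * ((ℓ : ℝ) * 1 + 5 + β + β + 6 + T) ≤ 2 * d * (19 * lam) := by
        rw [one_mul]
        exact mul_le_mul_of_nonneg_left e5 (by positivity)
      have e8 : ((ℓ : ℝ) * 1 + 5 + β + 2 + 1) * (d + 1) ≤ 11 * lam * (2 * d) := by
        refine mul_le_mul e6 (by linarith) (by positivity) (by positivity)
      have e9 : 11 * lam ≤ 11 * D := by linarith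
      have e10 : 2 * (d : ℝ) * (19 * lam) = 38 * D := by
        rw [hD]
        ring
      have e11 : 11 * lam * (2 * (d : ℝ)) = 22 * D := by
        rw [hD]
        ring
      linarith
    -- the number of levels
    have hkx : logb 2 ((k : ℝ) / a) ≤ logb 2 (2 + (k : ℝ) / D) + logb 2 L := by
      rw [← Real.logb_mul (by positivity) (by linarith)]
      apply Real.logb_le_logb_of_le (by norm_num) (by positivity)
      have h5 : (k : ℝ) / a ≤ k / x := by
        apply div_le_div_of_nonneg_left (by linarith) (by linarith) hax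
      have h6 : (k : ℝ) / x = k / D * L := by
        rw [hx]
        field_simp
      have h7 : (k : ℝ) / D * L ≤ (2 + k / D) * L :=
        mul_le_mul_of_nonneg_right (by linarith) (by linarith)
      linarith
    have hlogL : logb 2 L ≤ L := by
      have h5 : logb 2 L ≤ logb 2 (L + 1) :=
        Real.logb_le_logb_of_le (by norm_num) (by linarith) (by linarith)
      exact h5.trans (logb_two_le_self hL1)
    have hlogL0 : 0 ≤ logb 2 L := Real.logb_nonneg (by norm_num) hL1
    have hRL : logb 2 (2 + (k : ℝ) / D) = R * L := by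
      rw [hR]
      field_simp
    have hir : (i : ℝ) ≤ 2 + R := by
      rcases Nat.eq_zero_or_pos i with hi0 | hipos
      · rw [hi0]
        simp
        linarith
      · have h5 := hi (i - 1) (by omega)
        have h6 : ((d : ℝ) + 1) ^ (i - 1) * a < k := by exact_mod_cast h5
        have h7 : ((d : ℝ) + 1) ^ (i - 1) ≤ k / a := by
          rw [le_div_iff₀ (by linarith)]
          exact h6.le
        have h8 : (((i - 1 : ℕ) : ℝ)) * L ≤ logb 2 ((k : ℝ) / a) := by
          have h9 := Real.logb_le_logb_of_le (b := 2) (by norm_num) (by positivity) h7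
          rw [← Real.rpow_natCast, Real.logb_rpow_eq_mul_logb_of_pos (by positivity), ← hL] at h9
          exact h9
        have h10 : (((i - 1 : ℕ) : ℝ)) * L ≤ (R + 1) * L := by
          calc (((i - 1 : ℕ) : ℝ)) * L ≤ logb 2 ((k : ℝ) / a) := h8
            _ ≤ R * L + L := by
              rw [← hRL]
              linarith
            _ = (R + 1) * L := by ring
        have h11 : ((i - 1 : ℕ) : ℝ) ≤ R + 1 := le_of_mul_le_mul_right h10 (by linarith)
        rw [Nat.cast_sub hipos] at h11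
        push_cast at h11
        linarith
    -- the start
    have hstart : logb 2 ((4 * k * (a - 1 + (k - 1)).choose (a - 1) : ℕ) : ℝ) ≤
        11 * D + 2 * D * R := by
      have hch : 1 ≤ (a - 1 + (k - 1)).choose (a - 1) := Nat.choose_pos (Nat.le_add_right _ _)
      have hch' : (0 : ℝ) < ((a - 1 + (k - 1)).choose (a - 1) : ℝ) := by exact_mod_cast hch
      push_cast
      rw [Real.logb_mul (by positivity) hch'.ne', Real.logb_mul (by norm_num) (by linarith)]
      have h5 : logb 2 (4 : ℝ) = 2 := by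
        rw [show (4 : ℝ) = 2 ^ (2 : ℕ) by norm_num, Real.logb_pow]
        simp
      rw [h5]
      have h6 : logb 2 ((a - 1 + (k - 1)).choose (a - 1) : ℝ) ≤ a * (3 + logb 2 ((k : ℝ) / a)) := by
        have h7 := Real.logb_le_logb_of_le (b := 2) (by norm_num) hch' (choose_le_real a k ha1 hak)
        refine h7.trans (le_of_eq ?_)
        rw [Real.logb_pow, mul_div_assoc, Real.logb_mul (by norm_num) (by positivity)]
        congr 2
        rw [show (8 : ℝ) = 2 ^ (3 : ℕ) by norm_num, Real.logb_pow]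
        simp
      have h8 : 0 ≤ logb 2 ((k : ℝ) / a) := by
        apply Real.logb_nonneg (by norm_num)
        rw [le_div_iff₀ (by linarith), one_mul]
        exact_mod_cast hak
      have h9 : (a : ℝ) * (3 + logb 2 ((k : ℝ) / a)) ≤ 2 * x * (3 + (R * L + logb 2 L)) := by
        apply mul_le_mul hax2 _ (by positivity) (by positivity)
        rw [← hRL]
        linarith
      have h10 : 2 * x * (3 + (R * L + logb 2 L)) ≤ 8 * D + 2 * D * R := by
        have e1 : x * L = D := by
          rw [hx]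
          field_simp
        have e2 : x * logb 2 L ≤ x * L := mul_le_mul_of_nonneg_left hlogL (by linarith)
        calc 2 * x * (3 + (R * L + logb 2 L)) = 6 * x + 2 * R * (x * L) + 2 * (x * logb 2 L) := by ring
          _ ≤ 6 * D + 2 * R * D + 2 * D := by
              rw [e1] at e2 ⊢
              linarith
          _ = 8 * D + 2 * D * R := by ring
      have h11 : logb 2 (k : ℝ) ≤ D := by linarith
      linarith
    -- the end
    have hfin : logb 2 (n : ℝ) ≤ i * E + logb 2 ((4 * k * (a - 1 + (k - 1)).choose (a - 1) : ℕ) : ℝ) := by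
      have hch : 1 ≤ (a - 1 + (k - 1)).choose (a - 1) := Nat.choose_pos (Nat.le_add_right _ _)
      have hpos : 0 < 4 * k * (a - 1 + (k - 1)).choose (a - 1) := Nat.mul_pos (by omega) hch
      have hpos' : (0 : ℝ) < ((4 * k * (a - 1 + (k - 1)).choose (a - 1) : ℕ) : ℝ) := by
        exact_mod_cast hpos
      have h5 : (n : ℝ) ≤ 2 ^ (i * E) * ((4 * k * (a - 1 + (k - 1)).choose (a - 1) : ℕ) : ℝ) := by
        exact_mod_cast hbound
      have h6 := Real.logb_le_logb_of_le (b := 2) (by norm_num) (by linarith) h5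
      rw [Real.logb_mul (by positivity) hpos'.ne', Real.logb_pow,
        Real.logb_self_eq_one (by norm_num), mul_one] at h6
      push_cast at h6 ⊢
      exact h6
    have hiE : (i : ℝ) * E ≤ (2 + R) * (71 * D) :=
      mul_le_mul hir hEr (Nat.cast_nonneg _) (by linarith)
    have : 0 ≤ D * R := by positivity
    nlinarith

end Pool.Agent.H700.RU
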